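import Pool.Agent.XI.Defs

/-! # XI, row R2c: the Schwartz-Zippel lemma in a box of integer points -/

set_option autoImplicit false

namespace Pool.XI

open Finset

/-- R2c -/
theorem card_zeros_box {σ : Type} [Fintype σ] [DecidableEq σ] (R : MvPolynomial σ ℂ) (hR : R ≠ 0)
    (L : ℕ) (a : σ → ℕ) :
    L * ((Fintype.piFinset fun v => Finset.Ico (a v) (a v + L)).filter fun x : σ → ℕ =>
      MvPolynomial.eval (pt x) R = 0).card ≤ R.totalDegree * L ^ Fintype.card σ := by
  classical
  rcases Nat.eq_zero_or_pos L with hL | hL
  · subst hL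
    simp
  set N := Fintype.card σ with hN
  set e : σ ≃ Fin N := Fintype.equivFin σ with he
  set p : MvPolynomial (Fin N) ℂ := MvPolynomial.rename e R with hp
  have hp0 : p ≠ 0 := by
    intro h
    apply hR
    have hinj := MvPolynomial.rename_injective (R := ℂ) (e : σ → Fin N) e.injective
    apply hinj
    rw [← hp, h, map_zero]
  set S : Fin N → Finset ℂ := fun i =>
    (Finset.Ico (a (e.symm i)) (a (e.symm i) + L)).image (fun t : ℕ => (t : ℂ)) with hS
  have hScard : ∀ i, (S i).card = L := by
    intro i
    rw [hS]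
    simp only
    rw [card_image_of_injective _ Nat.cast_injective, Nat.card_Ico]
    omega
  set Z := (Fintype.piFinset fun v => Finset.Ico (a v) (a v + L)).filter fun x : σ → ℕ =>
      MvPolynomial.eval (pt x) R = 0 with hZ
  have hcard : Z.card ≤ ((Fintype.piFinset S).filter fun y => MvPolynomial.eval y p = 0).card := by
    refine card_le_card_of_injOn (fun x : σ → ℕ => fun i => ((x (e.symm i) : ℕ) : ℂ)) ?_ ?_
    · intro x hx
      have hx' := mem_filter.mp (Finset.mem_coe.mp hx)
      have h1 := Fintype.mem_piFinset.mp hx'.1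
      apply Finset.mem_coe.mpr
      refine mem_filter.mpr ⟨?_, ?_⟩
      · refine Fintype.mem_piFinset.mpr ?_
        intro i
        exact mem_image.mpr ⟨x (e.symm i), h1 (e.symm i), rfl⟩
      · rw [hp, MvPolynomial.eval_rename]
        have h2 : ((fun i => ((x (e.symm i) : ℕ) : ℂ)) ∘ (e : σ → Fin N)) = pt x := by
          funext v
          simp [pt]
        rw [h2]
        exact hx'.2
    · intro x _ y _ hxy
      funext v
      have h3 := congrFun hxy (e v)
      simp only [Equiv.symm_apply_apply] at h3
      exact_mod_cast h3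
  have hsz := MvPolynomial.schwartz_zippel_sup_sum hp0 S
  have hprod : (∏ i, ((S i).card : NNRat)) = (L : NNRat) ^ N := by
    rw [prod_congr rfl (fun i _ => by rw [hScard i])]
    rw [prod_const, card_univ, Fintype.card_fin]
  have hsup : (p.support.sup fun s => ∑ i, (s i / (S i).card : NNRat)) ≤
      (R.totalDegree : NNRat) / (L : NNRat) := by
    refine Finset.sup_le ?_
    intro s hs
    have h4 : (∑ i, (s i / (S i).card : NNRat)) = (((∑ i, s i : ℕ)) : NNRat) / (L : NNRat) := by
      rw [Nat.cast_sum, sum_div]
      refine sum_congr rfl ?_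
      intro i _
      rw [hScard i]
    rw [h4]
    have h5 := MvPolynomial.le_totalDegree hs
    have h6 : (s.sum fun _ e => e) = ∑ i, s i := Finsupp.sum_fintype _ _ (fun _ => rfl)
    rw [h6] at h5
    have h7 : p.totalDegree ≤ R.totalDegree := MvPolynomial.totalDegree_rename_le _ _
    have h8 : ((∑ i, s i : ℕ) : NNRat) ≤ (R.totalDegree : NNRat) := by
      exact_mod_cast le_trans h5 h7
    gcongr
  have hmain := le_trans hsz hsup
  rw [hprod] at hmain
  have hL0 : (0 : NNRat) < (L : NNRat) := by exact_mod_cast hL
  have hLN : (0 : NNRat) < (L : NNRat) ^ N := by positivity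
  rw [div_le_div_iff₀ hLN hL0] at hmain
  have h9 : ((Fintype.piFinset S).filter fun y => MvPolynomial.eval y p = 0).card * L ≤
      R.totalDegree * L ^ N := by
    exact_mod_cast hmain
  calc L * Z.card ≤ L * ((Fintype.piFinset S).filter fun y => MvPolynomial.eval y p = 0).card :=
        Nat.mul_le_mul_left _ hcard
    _ = ((Fintype.piFinset S).filter fun y => MvPolynomial.eval y p = 0).card * L := Nat.mul_comm _ _
    _ ≤ R.totalDegree * L ^ N := h9

end Pool.XI
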