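import Pool.Agent.XI.Defs

/-! # XI, row R2: sign changes of a polynomial at the integers, restriction to a line -/

set_option autoImplicit false

namespace Pool.XI

open Finset

theorem exists_root_of_change (p : Polynomial ℝ) (t : ℕ)
    (h : ¬ (0 < p.eval (t : ℝ) ↔ 0 < p.eval ((t : ℝ) + 1))) :
    ∃ r : ℝ, (t : ℝ) ≤ r ∧ r ≤ (t : ℝ) + 1 ∧ p.eval r = 0 := by
  have hc : ContinuousOn (fun r : ℝ => p.eval r) (Set.Icc (t : ℝ) ((t : ℝ) + 1)) :=
    p.continuous.continuousOn
  have hle : (t : ℝ) ≤ (t : ℝ) + 1 := by linarith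
  by_cases h0 : 0 < p.eval (t : ℝ)
  · have h1 : p.eval ((t : ℝ) + 1) ≤ 0 := by
      by_contra h2
      exact h ⟨fun _ => not_le.mp h2, fun _ => h0⟩
    obtain ⟨r, hr, hr0⟩ := intermediate_value_Icc' hle hc (Set.mem_Icc.mpr ⟨h1, h0.le⟩)
    exact ⟨r, hr.1, hr.2, hr0⟩
  · have h1 : 0 < p.eval ((t : ℝ) + 1) := by
      by_contra h2
      exact h ⟨fun h3 => absurd h3 h0, fun h3 => absurd h3 h2⟩
    obtain ⟨r, hr, hr0⟩ := intermediate_value_Icc hle hc
      (Set.mem_Icc.mpr ⟨not_lt.mp h0, h1.le⟩)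
    exact ⟨r, hr.1, hr.2, hr0⟩

/-- R2a -/
theorem card_changes (p : Polynomial ℝ) (M : ℕ) :
    ((range M).filter fun t : ℕ => ¬ (0 < p.eval (t : ℝ) ↔ 0 < p.eval ((t : ℝ) + 1))).card ≤
      2 * p.natDegree := by
  classical
  by_cases hp : p = 0
  · subst hp
    simp
  set S := (range M).filter fun t : ℕ => ¬ (0 < p.eval (t : ℝ) ↔ 0 < p.eval ((t : ℝ) + 1)) with hS
  have hch : ∀ t : ℕ, ∃ r : ℝ, t ∈ S → ((t : ℝ) ≤ r ∧ r ≤ (t : ℝ) + 1 ∧ p.eval r = 0) := by
    intro t
    by_cases ht : t ∈ S
    · obtain ⟨r, hr⟩ := exists_root_of_change p t (mem_filter.mp ht).2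
      exact ⟨r, fun _ => hr⟩
    · exact ⟨0, fun h => absurd h ht⟩
  choose ρ hρ using hch
  have h1 : S.card ≤ 2 * (S.image ρ).card := by
    refine card_le_mul_card_image S 2 ?_
    intro r _
    have hsub : (S.filter fun t => ρ t = r) ⊆ {⌊r⌋₊, ⌊r⌋₊ - 1} := by
      intro t ht
      obtain ⟨htS, htr⟩ := mem_filter.mp ht
      obtain ⟨ha, hb, _⟩ := hρ t htS
      rw [htr] at ha hb
      have hr0 : 0 ≤ r := le_trans (Nat.cast_nonneg t) ha
      have h2 : t ≤ ⌊r⌋₊ := Nat.le_floor ha
      have h3 : ⌊r⌋₊ ≤ t + 1 := by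
        have h4 : (⌊r⌋₊ : ℝ) ≤ ((t + 1 : ℕ) : ℝ) := by
          push_cast
          exact le_trans (Nat.floor_le hr0) hb
        exact_mod_cast h4
      simp only [mem_insert, mem_singleton]
      omega
    exact le_trans (card_le_card hsub) card_le_two
  have h2 : (S.image ρ).card ≤ p.natDegree := by
    have hsub : S.image ρ ⊆ p.roots.toFinset := by
      intro r hr
      obtain ⟨t, ht, rfl⟩ := mem_image.mp hr
      rw [Multiset.mem_toFinset, Polynomial.mem_roots hp]
      exact (hρ t ht).2.2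
    calc (S.image ρ).card ≤ p.roots.toFinset.card := card_le_card hsub
      _ ≤ Multiset.card p.roots := Multiset.toFinset_card_le _
      _ ≤ p.natDegree := Polynomial.card_roots' p
  omega

/-- R2b -/
theorem exists_line {σ : Type} [Fintype σ] [DecidableEq σ] (P : MvPolynomial σ ℂ) (x : σ → ℕ)
    (v : σ) : ∃ p : Polynomial ℝ, p.natDegree ≤ P.totalDegree ∧
      ∀ t : ℕ, p.eval (t : ℝ) = (MvPolynomial.eval (pt (Function.update x v t)) P).re := by
  classical
  set φ : σ → Polynomial ℂ := fun u => if u = v then Polynomial.X else Polynomial.C (x u : ℂ)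
    with hφ
  set q : Polynomial ℂ := MvPolynomial.aeval φ P with hq
  have hdeg : q.natDegree ≤ P.totalDegree := by
    rw [hq, MvPolynomial.aeval_def, MvPolynomial.eval₂_eq']
    refine Polynomial.natDegree_sum_le_of_forall_le _ _ ?_
    intro m hm
    refine le_trans Polynomial.natDegree_mul_le ?_
    have h1 : ((algebraMap ℂ (Polynomial ℂ)) (MvPolynomial.coeff m P)).natDegree = 0 := by
      rw [Polynomial.algebraMap_apply]
      exact Polynomial.natDegree_C _
    rw [h1, zero_add]
    have h2 : (∏ u, φ u ^ m u).natDegree ≤ ∑ u, m u := by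
      refine le_trans (Polynomial.natDegree_prod_le _ _) ?_
      refine sum_le_sum ?_
      intro u _
      refine le_trans Polynomial.natDegree_pow_le ?_
      have h3 : (φ u).natDegree ≤ 1 := by
        rw [hφ]
        by_cases huv : u = v
        · simp [huv]
        · simp [huv]
      calc m u * (φ u).natDegree ≤ m u * 1 := Nat.mul_le_mul_left _ h3
        _ = m u := Nat.mul_one _
    refine le_trans h2 ?_
    have h4 := MvPolynomial.le_totalDegree hm
    have h5 : (m.sum fun _ e => e) = ∑ u, m u := Finsupp.sum_fintype _ _ (fun _ => rfl)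
    rw [h5] at h4
    exact h4
  have heval : ∀ t : ℕ, q.eval (t : ℂ) = MvPolynomial.eval (pt (Function.update x v t)) P := by
    intro t
    rw [hq, MvPolynomial.aeval_def, MvPolynomial.eval₂_eq', MvPolynomial.eval_eq',
      Polynomial.eval_finsetSum]
    refine sum_congr rfl ?_
    intro m _
    rw [Polynomial.eval_mul, Polynomial.eval_prod]
    congr 1
    · simp
    · refine prod_congr rfl ?_
      intro u _
      rw [Polynomial.eval_pow]
      congr 1
      rw [hφ]
      by_cases huv : u = v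
      · subst huv
        simp [pt]
      · simp [pt, huv]
  refine ⟨∑ i ∈ range (q.natDegree + 1), Polynomial.monomial i (q.coeff i).re, ?_, ?_⟩
  · refine le_trans ?_ hdeg
    refine Polynomial.natDegree_sum_le_of_forall_le _ _ ?_
    intro i hi
    refine le_trans (Polynomial.natDegree_monomial_le _) ?_
    have := mem_range.mp hi
    omega
  · intro t
    rw [← heval t, Polynomial.eval_eq_sum_range (p := q), Complex.re_sum,
      Polynomial.eval_finsetSum]
    refine sum_congr rfl ?_
    intro i _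
    rw [Polynomial.eval_monomial]
    have h6 : ((t : ℂ)) ^ i = (((t : ℝ) ^ i : ℝ) : ℂ) := by push_cast; rfl
    rw [h6, Complex.re_mul_ofReal]

end Pool.XI
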