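import Pool.Agent.XI.Defs
import Pool.Agent.XI.Line
import Pool.Agent.QPIT.CircW

/-!
# XI, row R3: branching circuits at integer points
-/

set_option autoImplicit false
set_option linter.unusedVariables false

namespace Pool.XI

open Finset

section changes

/-- the number of the changes of a sequence -/
theorem card_image_le_changes {α : Type} [DecidableEq α] (M : ℕ) (u : ℕ → α) :
    ((range M).image u).card ≤ ((range M).filter fun t => t + 1 < M ∧ u t ≠ u (t + 1)).card + 1 := by
  have h : (range M).image u ⊆ insert (u 0)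
      (((range M).filter fun t => t + 1 < M ∧ u t ≠ u (t + 1)).image fun t => u (t + 1)) := by
    intro y hy
    rw [Finset.mem_image] at hy
    obtain ⟨t, ht, rfl⟩ := hy
    rw [Finset.mem_range] at ht
    induction t with
    | zero => exact Finset.mem_insert_self _ _
    | succ t ih =>
      by_cases h0 : u t = u (t + 1)
      · rw [← h0]
        exact ih (by omega)
      · refine Finset.mem_insert_of_mem (Finset.mem_image.2 ⟨t, ?_, rfl⟩)
        rw [Finset.mem_filter, Finset.mem_range]
        exact ⟨by omega, ht, h0⟩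
  refine (Finset.card_le_card h).trans ((Finset.card_insert_le _ _).trans ?_)
  exact Nat.add_le_add_right Finset.card_image_le 1

end changes

section gates

variable {σ : Type} [Fintype σ] {s : ℕ}

/-- the outcome of a condition -/
noncomputable def oc (F : Fin s → (σ → ℂ) → ℂ) (cd : Option (Fin s)) (x : σ → ℂ) : Bool :=
  cd.elim false fun f => @decide (0 < (F f x).re) (Classical.dec _)

/-- the gate formulas -/
def Gate (w : ℕ) (F : Fin s → (σ → ℂ) → ℂ) (lev br deg : Fin s → ℕ) (g : Fin s) : Prop :=
  (∃ (a₀ : ℂ) (a : σ → ℂ) (c : Fin s → ℂ),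
        (∀ h, c h ≠ 0 → h < g ∧ lev h ≤ lev g ∧ br h ≤ br g ∧ deg h ≤ deg g) ∧
        ∀ x, F g x = a₀ + ∑ v, a v * x v + ∑ h, c h * F h x) ∨
     (∃ (a₀ : ℂ) (a : σ → ℕ) (e : Fin s → ℕ), 0 < lev g ∧
        (∀ h, e h ≠ 0 → h < g ∧ lev h < lev g ∧ br h ≤ br g) ∧
        ∑ v, a v + ∑ h, e h * deg h ≤ deg g ∧
        ∀ x, F g x = a₀ * (∏ v, x v ^ a v) * ∏ h, F h x ^ e h) ∨
     (∃ (t : Fin w → Fin s) (Q : MvPolynomial (Fin w) ℂ), 0 < lev g ∧
        (∀ i, t i < g ∧ lev (t i) < lev g ∧ br (t i) ≤ br g ∧ Q.totalDegree * deg (t i) ≤ deg g) ∧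
        ∀ x, F g x = MvPolynomial.eval (fun i => F (t i) x) Q) ∨
     (∃ f h k : Fin s, f < g ∧ h < g ∧ k < g ∧ br f < br g ∧ br h ≤ br g ∧ br k ≤ br g ∧
        lev h ≤ lev g ∧ lev k ≤ lev g ∧ deg h ≤ deg g ∧ deg k ≤ deg g ∧
        ∀ x, F g x = if 0 < (F f x).re then F h x else F k x)

/-- the three formulas of a circuit without branches at one gate -/
def GateW (w : ℕ) (P : Fin s → MvPolynomial σ ℂ) (lev : Fin s → ℕ) (g : Fin s) : Prop :=
  (∃ (a₀ : ℂ) (a : σ → ℂ) (c : Fin s → ℂ), (∀ h, c h ≠ 0 → h < g ∧ lev h ≤ lev g) ∧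
        P g = MvPolynomial.C a₀ + ∑ v, MvPolynomial.C (a v) * MvPolynomial.X v +
          ∑ h, MvPolynomial.C (c h) * P h) ∨
     (∃ (a₀ : ℂ) (a : σ → ℕ) (e : Fin s → ℕ), 0 < lev g ∧
        (∀ h, e h ≠ 0 → h < g ∧ lev h < lev g) ∧
        P g = MvPolynomial.C a₀ * (∏ v, MvPolynomial.X v ^ a v) * ∏ h, P h ^ e h) ∨
     (∃ (t : Fin w → Fin s) (Q : MvPolynomial (Fin w) ℂ), 0 < lev g ∧
        (∀ i, t i < g ∧ lev (t i) < lev g) ∧ P g = MvPolynomial.aeval (fun i => P (t i)) Q)

/-- the formal gate -/
theorem exists_step {w : ℕ} {F : Fin s → (σ → ℂ) → ℂ} {lev br deg : Fin s → ℕ} {g : Fin s}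
    (h1 : 1 ≤ deg g) (hg : Gate w F lev br deg g) :
    ∃ (step : (Fin s → MvPolynomial σ ℂ) → Bool → MvPolynomial σ ℂ) (cd : Option (Fin s)),
      (∀ P P' b, (∀ h, h < g → P h = P' h) → step P b = step P' b) ∧
      (∀ P b x, (∀ h, h < g → br h ≤ br g → F h x = MvPolynomial.eval x (P h)) →
        b = oc F cd x → F g x = MvPolynomial.eval x (step P b)) ∧
      (∀ P b, (∀ h, h < g → (P h).totalDegree ≤ deg h) → (step P b).totalDegree ≤ deg g) ∧
      (∀ f, cd = some f → f < g ∧ br f < br g) ∧
      (∀ P P' b, (∀ h, h < g → lev h ≤ lev g → P' h = P h) → P' g = step P b →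
        GateW w P' lev g) := by
  classical
  rcases hg with ⟨a₀, a, c, hc, hF⟩ | ⟨a₀, a, e, hlev, he, hdeg, hF⟩ | ⟨t, Q, hlev, ht, hF⟩ |
    ⟨f, h, k, hf, hh, hk, bf, bh, bk, lh, lk, dh, dk, hF⟩
  · refine ⟨fun P _ => MvPolynomial.C a₀ + ∑ v, MvPolynomial.C (a v) * MvPolynomial.X v +
      ∑ h, MvPolynomial.C (c h) * P h, none, ?_, ?_, ?_, ?_, ?_⟩
    · intro P P' b hP
      show _ + _ = _ + _
      congr 1
      refine Finset.sum_congr rfl fun h _ => ?_
      by_cases h0 : c h = 0
      · rw [h0, MvPolynomial.C_0, zero_mul, zero_mul]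
      · rw [hP h (hc h h0).1]
    · intro P b x hP _
      rw [hF]
      simp only [map_add, map_sum, map_mul, MvPolynomial.eval_C, MvPolynomial.eval_X]
      congr 1
      refine Finset.sum_congr rfl fun h _ => ?_
      by_cases h0 : c h = 0
      · rw [h0, zero_mul, zero_mul]
      · rw [hP h (hc h h0).1 (hc h h0).2.2.1]
    · intro P b hP
      refine (MvPolynomial.totalDegree_add _ _).trans (max_le ?_ ?_)
      · refine (MvPolynomial.totalDegree_add _ _).trans (max_le ?_ ?_)
        · rw [MvPolynomial.totalDegree_C]
          exact Nat.zero_le _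
        · refine MvPolynomial.totalDegree_finsetSum_le fun v _ => ?_
          refine (MvPolynomial.totalDegree_mul _ _).trans ?_
          rw [MvPolynomial.totalDegree_C, MvPolynomial.totalDegree_X]
          exact h1
      · refine MvPolynomial.totalDegree_finsetSum_le fun h _ => ?_
        by_cases h0 : c h = 0
        · rw [h0, MvPolynomial.C_0, zero_mul, MvPolynomial.totalDegree_zero]
          exact Nat.zero_le _
        · refine (MvPolynomial.totalDegree_mul _ _).trans ?_
          rw [MvPolynomial.totalDegree_C, zero_add]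
          exact (hP h (hc h h0).1).trans (hc h h0).2.2.2
    · intro f hf
      cases hf
    · intro P P' b hP hg
      refine Or.inl ⟨a₀, a, c, fun h h0 => ⟨(hc h h0).1, (hc h h0).2.1⟩, ?_⟩
      rw [hg]
      show _ + _ = _ + _
      congr 1
      refine Finset.sum_congr rfl fun h _ => ?_
      by_cases h0 : c h = 0
      · rw [h0, MvPolynomial.C_0, zero_mul, zero_mul]
      · rw [hP h (hc h h0).1 (hc h h0).2.1]
  · refine ⟨fun P _ => MvPolynomial.C a₀ * (∏ v, MvPolynomial.X v ^ a v) * ∏ h, P h ^ e h, none,
      ?_, ?_, ?_, ?_, ?_⟩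
    · intro P P' b hP
      show _ * _ = _ * _
      congr 1
      refine Finset.prod_congr rfl fun h _ => ?_
      by_cases h0 : e h = 0
      · rw [h0, pow_zero, pow_zero]
      · rw [hP h (he h h0).1]
    · intro P b x hP _
      rw [hF]
      simp only [map_mul, map_prod, map_pow, MvPolynomial.eval_C, MvPolynomial.eval_X]
      congr 1
      refine Finset.prod_congr rfl fun h _ => ?_
      by_cases h0 : e h = 0
      · rw [h0, pow_zero, pow_zero]
      · rw [hP h (he h h0).1 (he h h0).2.2]
    · intro P b hP
      refine le_trans ?_ hdeg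
      refine (MvPolynomial.totalDegree_mul _ _).trans (Nat.add_le_add ?_ ?_)
      · refine (MvPolynomial.totalDegree_mul _ _).trans ?_
        rw [MvPolynomial.totalDegree_C, zero_add]
        refine (MvPolynomial.totalDegree_finsetProd _ _).trans (Finset.sum_le_sum fun v _ => ?_)
        refine (MvPolynomial.totalDegree_pow _ _).trans ?_
        rw [MvPolynomial.totalDegree_X, mul_one]
      · refine (MvPolynomial.totalDegree_finsetProd _ _).trans (Finset.sum_le_sum fun h _ => ?_)
        refine (MvPolynomial.totalDegree_pow _ _).trans ?_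
        by_cases h0 : e h = 0
        · rw [h0, zero_mul, zero_mul]
        · exact Nat.mul_le_mul_left _ (hP h (he h h0).1)
    · intro f hf
      cases hf
    · intro P P' b hP hg
      refine Or.inr (Or.inl ⟨a₀, a, e, hlev, fun h h0 => ⟨(he h h0).1, (he h h0).2.1⟩, ?_⟩)
      rw [hg]
      show _ * _ = _ * _
      congr 1
      refine Finset.prod_congr rfl fun h _ => ?_
      by_cases h0 : e h = 0
      · rw [h0, pow_zero, pow_zero]
      · rw [hP h (he h h0).1 (he h h0).2.1.le]
  · refine ⟨fun P _ => MvPolynomial.aeval (fun i => P (t i)) Q, none, ?_, ?_, ?_, ?_, ?_⟩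
    · intro P P' b hP
      have : (fun i => P (t i)) = fun i => P' (t i) := funext fun i => hP _ (ht i).1
      show MvPolynomial.aeval (fun i => P (t i)) Q = MvPolynomial.aeval (fun i => P' (t i)) Q
      rw [this]
    · intro P b x hP _
      rw [hF]
      have h2 : (fun i => F (t i) x) = fun i => MvPolynomial.eval x (P (t i)) :=
        funext fun i => hP _ (ht i).1 (ht i).2.2.1
      rw [h2]
      show _ = MvPolynomial.eval x (MvPolynomial.aeval (fun i => P (t i)) Q)
      rw [MvPolynomial.aeval_def, MvPolynomial.hom_eval₂]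
      have h3 : (MvPolynomial.eval x).comp (algebraMap ℂ (MvPolynomial σ ℂ)) = RingHom.id ℂ := by
        ext z
        rw [RingHom.comp_apply, MvPolynomial.algebraMap_eq, MvPolynomial.eval_C, RingHom.id_apply]
      rw [h3]
      rfl
    · intro P b hP
      show (MvPolynomial.aeval (fun i => P (t i)) Q).totalDegree ≤ deg g
      rw [MvPolynomial.aeval_def, MvPolynomial.eval₂_eq']
      refine MvPolynomial.totalDegree_finsetSum_le fun m hm => ?_
      refine (MvPolynomial.totalDegree_mul _ _).trans ?_
      rw [MvPolynomial.algebraMap_eq, MvPolynomial.totalDegree_C, zero_add]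
      refine (MvPolynomial.totalDegree_finsetProd _ _).trans ?_
      have hm1 : ∑ i, m i ≤ Q.totalDegree := by
        have := MvPolynomial.le_totalDegree hm
        rwa [Finsupp.sum_fintype _ _ fun _ => rfl] at this
      rcases Nat.eq_zero_or_pos w with h0 | h0
      · subst h0
        rw [Finset.univ_eq_empty, Finset.sum_empty]
        exact Nat.zero_le _
      · obtain ⟨i0, -, hi0⟩ := Finset.exists_max_image (univ : Finset (Fin w)) (fun i => deg (t i))
          ⟨⟨0, h0⟩, mem_univ _⟩
        calc ∑ i, (P (t i) ^ m i).totalDegree ≤ ∑ i, m i * deg (t i0) :=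
              Finset.sum_le_sum fun i _ => (MvPolynomial.totalDegree_pow _ _).trans
                (Nat.mul_le_mul_left _ ((hP _ (ht i).1).trans (hi0 i (mem_univ i))))
          _ = (∑ i, m i) * deg (t i0) := by rw [Finset.sum_mul]
          _ ≤ Q.totalDegree * deg (t i0) := Nat.mul_le_mul_right _ hm1
          _ ≤ deg g := (ht i0).2.2.2
    · intro f hf
      cases hf
    · intro P P' b hP hg
      refine Or.inr (Or.inr ⟨t, Q, hlev, fun i => ⟨(ht i).1, (ht i).2.1⟩, ?_⟩)
      rw [hg]
      have : (fun i => P (t i)) = fun i => P' (t i) :=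
        funext fun i => (hP _ (ht i).1 (ht i).2.1.le).symm
      show MvPolynomial.aeval (fun i => P (t i)) Q = MvPolynomial.aeval (fun i => P' (t i)) Q
      rw [this]
  · refine ⟨fun P b => if b = true then P h else P k, some f, ?_, ?_, ?_, ?_, ?_⟩
    · intro P P' b hP
      show (if b = true then P h else P k) = if b = true then P' h else P' k
      rw [hP h hh, hP k hk]
    · intro P b x hP hb
      rw [hF, hP h hh bh, hP k hk bk]
      show _ = MvPolynomial.eval x (if b = true then P h else P k)
      have hb' : b = true ↔ 0 < (F f x).re := by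
        rw [hb]
        show @decide (0 < (F f x).re) (Classical.dec _) = true ↔ _
        rw [decide_eq_true_iff]
      by_cases h0 : 0 < (F f x).re
      · rw [if_pos h0, if_pos (hb'.2 h0)]
      · rw [if_neg h0, if_neg fun h2 => h0 (hb'.1 h2)]
    · intro P b hP
      show (if b = true then P h else P k).totalDegree ≤ deg g
      split_ifs
      · exact (hP h hh).trans dh
      · exact (hP k hk).trans dk
    · intro f' hf'
      cases hf'
      exact ⟨hf, bf⟩
    · intro P P' b hP hg
      obtain ⟨j, hj, lj, hjP⟩ : ∃ j, j < g ∧ lev j ≤ lev g ∧ P' g = P' j := by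
        rw [hg]
        show ∃ j, j < g ∧ lev j ≤ lev g ∧ (if b = true then P h else P k) = P' j
        split_ifs
        · exact ⟨h, hh, lh, (hP h hh lh).symm⟩
        · exact ⟨k, hk, lk, (hP k hk lk).symm⟩
      refine Or.inl ⟨0, fun _ => 0, fun i => if i = j then 1 else 0, fun i hi => ?_, ?_⟩
      · have : i = j := by
          by_contra h0
          have hi' : (if i = j then (1 : ℂ) else 0) ≠ 0 := hi
          rw [if_neg h0] at hi'
          exact hi' rfl
        rw [this]
        exact ⟨hj, lj⟩
      · rw [hjP]
        simp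

/-- solution of the recursion -/
theorem exists_fix {s : ℕ} {M : Type} [Zero M] (step : Fin s → (Fin s → M) → Bool → M)
    (ha : ∀ g P P' b, (∀ h, h < g → P h = P' h) → step g P b = step g P' b) (τ : Fin s → Bool) :
    ∃ P : Fin s → M, ∀ g, P g = step g P (τ g) := by
  let G : (g : Fin s) → ((h : Fin s) → h < g → M) → M := fun g ih =>
    step g (fun h => if hh : h < g then ih h hh else 0) (τ g)
  refine ⟨(wellFounded_lt (α := Fin s)).fix G, fun g => ?_⟩
  rw [WellFounded.fix_eq]
  exact ha g _ _ _ fun h hh => dif_pos hh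

end gates

/-- **R3** -/
theorem exists_pattern {σ : Type} [Fintype σ] [DecidableEq σ] {d w b D s : ℕ}
    {F : Fin s → (σ → ℂ) → ℂ} {o : Fin s} (hF : IsBranching d w b D F o) (M : ℕ) :
    ∃ (c : (σ → ℕ) → Fin s → Bool) (P : (Fin s → Bool) → MvPolynomial σ ℂ),
      (∀ (v : σ) (x : σ → ℕ), Set.ncard {t : ℕ | t + 1 < M ∧
        c (Function.update x v t) ≠ c (Function.update x v (t + 1))} ≤ (1 + 2 * s * D) ^ b) ∧
      (∀ τ, (P τ).totalDegree ≤ D) ∧ (∀ x, F o (pt x) = MvPolynomial.eval (pt x) (P (c x))) ∧
      ∀ τ, ∃ P' : Fin s → MvPolynomial σ ℂ, Pool.QPIT.IsCircuitW d w P' ∧ P' o = P τ := by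
  classical
  obtain ⟨lev, br, deg, hlo, hall⟩ := hF
  have hbr : ∀ g, br g ≤ b := fun g => (hall g).1
  have hd1 : ∀ g, 1 ≤ deg g := fun g => (hall g).2.1
  have hdD : ∀ g, deg g ≤ D := fun g => (hall g).2.2.1
  choose step cd ha hb hc hd he using fun g => exists_step (hd1 g) (hall g).2.2.2
  choose P hP using fun τ => exists_fix step ha τ
  -- degrees
  have hdeg : ∀ τ g, (P τ g).totalDegree ≤ deg g := by
    intro τ g
    induction g using WellFoundedLT.induction with
    | ind g ih =>
      rw [hP τ g]
      exact hc g (P τ) (τ g) fun h hh => ih h hh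
  -- the outcomes
  let c : (σ → ℕ) → Fin s → Bool := fun x g => oc F (cd g) (pt x)
  have hval : ∀ (l : ℕ) (τ : Fin s → Bool) (x : σ → ℕ), (∀ g, br g ≤ l → τ g = c x g) →
      ∀ g, br g ≤ l → F g (pt x) = MvPolynomial.eval (pt x) (P τ g) := by
    intro l τ x hτ g
    induction g using WellFoundedLT.induction with
    | ind g ih =>
      intro hgl
      rw [hP τ g]
      exact hb g (P τ) (τ g) (pt x) (fun h hh hbh => ih h hh (hbh.trans hgl)) (hτ g hgl)
  let cl : ℕ → (σ → ℕ) → Fin s → Bool := fun l x g => if br g ≤ l then c x g else false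
  have hclb : ∀ x, cl b x = c x := fun x => funext fun g => if_pos (hbr g)
  -- the number of the changes
  have hchg : ∀ (v : σ) (x : σ → ℕ) (l : ℕ), ((range M).filter fun t => t + 1 < M ∧
      cl l (Function.update x v t) ≠ cl l (Function.update x v (t + 1))).card + 1 ≤
        (1 + 2 * s * D) ^ l := by
    intro v x l
    induction l with
    | zero =>
      have h0 : ∀ y, cl 0 y = fun _ => false := by
        intro y
        funext g
        show (if br g ≤ 0 then c y g else false) = false
        split_ifs with hg
        · show oc F (cd g) (pt y) = false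
          rcases hcd : cd g with _ | f
          · rfl
          · have := (hd g f hcd).2
            omega
        · rfl
      have h1 : ((range M).filter fun t => t + 1 < M ∧
          cl 0 (Function.update x v t) ≠ cl 0 (Function.update x v (t + 1))) = ∅ := by
        rw [Finset.filter_eq_empty_iff]
        intro t _ ht
        exact ht.2 (by rw [h0, h0])
      rw [h1]
      simp
    | succ l ih =>
      set u : ℕ → Fin s → Bool := fun t => cl l (Function.update x v t) with hu
      choose p hp1 hp2 using fun (τ : Fin s → Bool) (f : Fin s) => exists_line (P τ f) x v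
      let St : (Fin s → Bool) → Fin s → Finset ℕ := fun τ f =>
        (range M).filter fun t : ℕ => ¬ (0 < (p τ f).eval (t : ℝ) ↔ 0 < (p τ f).eval ((t : ℝ) + 1))
      have hSt : ∀ τ f, (St τ f).card ≤ 2 * D := fun τ f =>
        (card_changes (p τ f) M).trans (Nat.mul_le_mul_left 2
          ((hp1 τ f).trans ((hdeg τ f).trans (hdD f))))
      have hsub : ((range M).filter fun t => t + 1 < M ∧
          cl (l + 1) (Function.update x v t) ≠ cl (l + 1) (Function.update x v (t + 1))) ⊆
          ((range M).filter fun t => t + 1 < M ∧ u t ≠ u (t + 1)) ∪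
            ((range M).image u).biUnion fun τ => (univ : Finset (Fin s)).biUnion fun f => St τ f := by
        intro t ht
        rw [Finset.mem_filter] at ht
        obtain ⟨ht0, ht1, ht2⟩ := ht
        by_cases h0 : u t = u (t + 1)
        · apply Finset.mem_union_right
          rw [Finset.mem_biUnion]
          refine ⟨u t, Finset.mem_image_of_mem u ht0, ?_⟩
          obtain ⟨g, hg⟩ := Function.ne_iff.1 ht2
          have hgl : br g ≤ l + 1 := by
            by_contra hcon
            apply hg
            show (if br g ≤ l + 1 then _ else false) = if br g ≤ l + 1 then _ else false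
            rw [if_neg hcon, if_neg hcon]
          have hg' : c (Function.update x v t) g ≠ c (Function.update x v (t + 1)) g := by
            intro h2
            apply hg
            show (if br g ≤ l + 1 then _ else false) = if br g ≤ l + 1 then _ else false
            rw [if_pos hgl, if_pos hgl]
            exact h2
          rcases hcd : cd g with _ | f
          · exfalso
            apply hg'
            show oc F (cd g) _ = oc F (cd g) _
            rw [hcd]
            rfl
          · have hfl : br f ≤ l := by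
              have := (hd g f hcd).2
              omega
            rw [Finset.mem_biUnion]
            refine ⟨f, mem_univ f, ?_⟩
            rw [Finset.mem_filter]
            refine ⟨ht0, fun hiff => hg' ?_⟩
            have e1 := hval l (u t) (Function.update x v t) (fun g hg => by
              show (if br g ≤ l then c _ g else false) = _
              rw [if_pos hg]) f hfl
            have e2 := hval l (u t) (Function.update x v (t + 1)) (fun g hg => by
              rw [h0]
              show (if br g ≤ l then c _ g else false) = _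
              rw [if_pos hg]) f hfl
            have e3 := hp2 (u t) f t
            have e4 := hp2 (u t) f (t + 1)
            rw [← e1] at e3
            rw [← e2] at e4
            push_cast at e4
            rw [e3, e4] at hiff
            show oc F (cd g) _ = oc F (cd g) _
            rw [hcd]
            show @decide (0 < (F f (pt (Function.update x v t))).re) (Classical.dec _) =
              @decide (0 < (F f (pt (Function.update x v (t + 1)))).re) (Classical.dec _)
            exact decide_eq_decide.2 hiff
        · apply Finset.mem_union_left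
          rw [Finset.mem_filter]
          exact ⟨ht0, ht1, h0⟩
      have himg := card_image_le_changes M u
      set A := ((range M).filter fun t => t + 1 < M ∧ u t ≠ u (t + 1)).card with hA
      have ih' : A + 1 ≤ (1 + 2 * s * D) ^ l := ih
      calc ((range M).filter fun t => t + 1 < M ∧
          cl (l + 1) (Function.update x v t) ≠ cl (l + 1) (Function.update x v (t + 1))).card + 1
          ≤ A + (((range M).image u).biUnion fun τ =>
            (univ : Finset (Fin s)).biUnion fun f => St τ f).card + 1 :=
            Nat.add_le_add_right ((Finset.card_le_card hsub).trans (Finset.card_union_le _ _)) 1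
        _ ≤ A + ((range M).image u).card * (s * (2 * D)) + 1 := by
            refine Nat.add_le_add_right (Nat.add_le_add_left ?_ A) 1
            refine (Finset.card_biUnion_le).trans ?_
            rw [← smul_eq_mul, ← Finset.sum_const]
            refine Finset.sum_le_sum fun τ _ => ?_
            refine (Finset.card_biUnion_le).trans ?_
            calc ∑ f, (St τ f).card ≤ ∑ _f : Fin s, 2 * D := Finset.sum_le_sum fun f _ => hSt τ f
              _ = s * (2 * D) := by
                rw [Finset.sum_const, Finset.card_univ, Fintype.card_fin, smul_eq_mul]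
        _ ≤ A + (A + 1) * (s * (2 * D)) + 1 :=
            Nat.add_le_add_right (Nat.add_le_add_left (Nat.mul_le_mul_right _ himg) A) 1
        _ = (A + 1) * (1 + 2 * s * D) := by ring
        _ ≤ (1 + 2 * s * D) ^ l * (1 + 2 * s * D) := Nat.mul_le_mul_right _ ih'
        _ = (1 + 2 * s * D) ^ (l + 1) := (pow_succ _ _).symm
  refine ⟨c, fun τ => P τ o, ?_, fun τ => (hdeg τ o).trans (hdD o), fun x => ?_, fun τ => ?_⟩
  · intro v x
    have h1 := hchg v x b
    simp only [hclb] at h1
    have h2 : ({t : ℕ | t + 1 < M ∧ c (Function.update x v t) ≠ c (Function.update x v (t + 1))} :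
        Set ℕ) = (((range M).filter fun t => t + 1 < M ∧
          c (Function.update x v t) ≠ c (Function.update x v (t + 1)) : Finset ℕ) : Set ℕ) := by
      ext t
      simp only [Set.mem_ofPred_eq, Finset.coe_filter, Finset.mem_range]
      constructor
      · rintro ⟨h3, h4⟩
        exact ⟨by omega, h3, h4⟩
      · rintro ⟨-, h3, h4⟩
        exact ⟨h3, h4⟩
    rw [h2, Set.ncard_coe_finset]
    omega
  · exact hval b (c x) x (fun g _ => rfl) o (hbr o)
  · refine ⟨fun g => if lev g ≤ d then P τ g else 0,
      ⟨fun g => if lev g ≤ d then lev g else 0, fun g => ?_⟩, if_pos hlo⟩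
    by_cases hg : lev g ≤ d
    · have h1 : GateW w (fun g => if lev g ≤ d then P τ g else 0) lev g :=
        he g (P τ) _ (τ g) (fun h _ hl => if_pos (hl.trans hg)) (by
          show (if lev g ≤ d then P τ g else 0) = _
          rw [if_pos hg]
          exact hP τ g)
      have hlv : ∀ h, lev h ≤ lev g → (if lev h ≤ d then lev h else 0) = lev h :=
        fun h hl => if_pos (hl.trans hg)
      refine ⟨(hlv g le_rfl).le.trans hg, ?_⟩
      rcases h1 with ⟨a₀, a, c, h2, h3⟩ | ⟨a₀, a, e, h2, h3, h4⟩ | ⟨t, Q, h2, h3, h4⟩
      · refine Or.inl ⟨a₀, a, c, fun h h0 => ⟨(h2 h h0).1, ?_⟩, h3⟩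
        show (if lev h ≤ d then lev h else 0) ≤ if lev g ≤ d then lev g else 0
        rw [hlv h (h2 h h0).2, if_pos hg]
        exact (h2 h h0).2
      · refine Or.inr (Or.inl ⟨a₀, a, e, lt_of_lt_of_le h2 (hlv g le_rfl).ge,
          fun h h0 => ⟨(h3 h h0).1, ?_⟩, h4⟩)
        show (if lev h ≤ d then lev h else 0) < if lev g ≤ d then lev g else 0
        rw [hlv h (h3 h h0).2.le, if_pos hg]
        exact (h3 h h0).2
      · refine Or.inr (Or.inr ⟨t, Q, lt_of_lt_of_le h2 (hlv g le_rfl).ge,
          fun i => ⟨(h3 i).1, ?_⟩, h4⟩)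
        show (if lev (t i) ≤ d then lev (t i) else 0) < if lev g ≤ d then lev g else 0
        rw [hlv _ (h3 i).2.le, if_pos hg]
        exact (h3 i).2
    · refine ⟨?_, Or.inl ⟨0, fun _ => 0, fun _ => 0, fun h h0 => absurd rfl h0, ?_⟩⟩
      · show (if lev g ≤ d then lev g else 0) ≤ d
        rw [if_neg hg]
        exact Nat.zero_le _
      · show (if lev g ≤ d then P τ g else 0) = _
        rw [if_neg hg]
        simp

end Pool.XI
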