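import Mathlib

/-!
# XI, row R1: counting boxes of a grid
-/

set_option autoImplicit false

namespace Pool.XI

open Finset

section box

variable {σ ι : Type} [Fintype σ] [DecidableEq σ]

/-- a function on a box which does not change along the unit steps inside the box is constant -/
theorem const_of_steps (L : ℕ) (c : (σ → ℕ) → ι) (a : σ → ℕ)
    (h : ∀ x ∈ Fintype.piFinset (fun v => Finset.Ico (a v) (a v + L)), ∀ v,
      x v + 1 < a v + L → c x = c (Function.update x v (x v + 1))) :
    ∀ x ∈ Fintype.piFinset (fun v => Finset.Ico (a v) (a v + L)), c x = c a := by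
  have key : ∀ m : ℕ, ∀ x ∈ Fintype.piFinset (fun v => Finset.Ico (a v) (a v + L)),
      ∑ v, (x v - a v) = m → c x = c a := by
    intro m
    induction m with
    | zero =>
      intro x hx hm
      have h1 : x = a := by
        funext v
        have h2 := (Finset.sum_eq_zero_iff.1 hm) v (mem_univ v)
        have h3 := Finset.mem_Ico.1 (Fintype.mem_piFinset.1 hx v)
        omega
      rw [h1]
    | succ m ih =>
      intro x hx hm
      have h1 : ∃ v, 0 < x v - a v := by
        by_contra hcon
        push Not at hcon
        have : ∑ v, (x v - a v) = 0 := Finset.sum_eq_zero fun v _ => by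
          have := hcon v
          omega
        omega
      obtain ⟨v, hv⟩ := h1
      have hx' := fun u => Finset.mem_Ico.1 (Fintype.mem_piFinset.1 hx u)
      have hxv := hx' v
      set y := Function.update x v (x v - 1) with hy
      have hyv : y v = x v - 1 := Function.update_self v _ x
      have hyu : ∀ u, u ≠ v → y u = x u := fun u hu => Function.update_of_ne hu _ x
      have hymem : y ∈ Fintype.piFinset (fun v => Finset.Ico (a v) (a v + L)) := by
        rw [Fintype.mem_piFinset]
        intro u
        rw [Finset.mem_Ico]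
        by_cases hu : u = v
        · subst hu
          rw [hyv]
          omega
        · rw [hyu u hu]
          exact hx' u
      have hxy : x = Function.update y v (y v + 1) := by
        funext u
        by_cases hu : u = v
        · subst hu
          rw [Function.update_self, hyv]
          omega
        · rw [Function.update_of_ne hu, hyu u hu]
      have hs : ∑ u, (y u - a u) = m := by
        have h2 : ∑ u, (x u - a u) = ∑ u, (y u - a u) + 1 := by
          rw [← Finset.add_sum_erase _ _ (mem_univ v), ← Finset.add_sum_erase univ (fun u => y u - a u)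
            (mem_univ v)]
          have h3 : ∑ u ∈ univ.erase v, (x u - a u) = ∑ u ∈ univ.erase v, (y u - a u) :=
            Finset.sum_congr rfl fun u hu => by rw [hyu u (Finset.ne_of_mem_erase hu)]
          rw [h3, hyv]
          omega
        omega
      rw [hxy, ← h y hymem v (by rw [hyv]; omega)]
      exact ih y hymem hs
  exact fun x hx => key _ x hx rfl

/-- counting by lines: if the set `R` contains at most `V` points of the form `x` with the `v`-th
coordinate changed, for every `x`, then `R` is small -/
theorem card_lines (M V : ℕ) (v : σ) (R : Finset (σ → ℕ)) (hR : ∀ x ∈ R, ∀ u, x u < M)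
    (hV : ∀ x : σ → ℕ, ((range M).filter fun t => Function.update x v t ∈ R).card ≤ V) :
    M * R.card ≤ V * M ^ Fintype.card σ := by
  classical
  set G : Finset (σ → ℕ) := Fintype.piFinset fun _ => range M with hG
  have hGc : G.card = M ^ Fintype.card σ := by
    rw [hG, Fintype.card_piFinset]
    simp
  set S : Finset ((_x : σ → ℕ) × ℕ) := G.sigma fun x => (range M).filter fun t => Function.update x v t ∈ R
    with hS
  have h1 : S.card ≤ V * M ^ Fintype.card σ := by
    rw [hS, Finset.card_sigma]
    calc ∑ x ∈ G, ((range M).filter fun t => Function.update x v t ∈ R).card ≤ ∑ x ∈ G, V :=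
          Finset.sum_le_sum fun x _ => hV x
      _ = V * M ^ Fintype.card σ := by rw [Finset.sum_const, smul_eq_mul, hGc, mul_comm]
  have h2 : (R ×ˢ range M).card ≤ S.card := by
    refine Finset.card_le_card_of_injOn (fun p => ⟨Function.update p.1 v p.2, p.1 v⟩) ?_ ?_
    · rintro ⟨y, t⟩ hp
      rw [Finset.mem_coe, Finset.mem_product, Finset.mem_range] at hp
      rw [Finset.mem_coe, hS, Finset.mem_sigma, Finset.mem_filter, Finset.mem_range]
      refine ⟨?_, hR y hp.1 v, ?_⟩
      · rw [hG, Fintype.mem_piFinset]
        intro u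
        rw [Finset.mem_range]
        by_cases hu : u = v
        · subst hu
          show Function.update y u t u < M
          rw [Function.update_self]
          exact hp.2
        · show Function.update y v t u < M
          rw [Function.update_of_ne hu]
          exact hR y hp.1 u
      · show Function.update (Function.update y v t) v (y v) ∈ R
        rw [Function.update_idem, Function.update_eq_self]
        exact hp.1
    · rintro ⟨y, t⟩ _ ⟨y', t'⟩ _ heq
      have e1 : Function.update y v t = Function.update y' v t' := congrArg Sigma.fst heq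
      have e2 : y v = y' v := congrArg (fun q : (_x : σ → ℕ) × ℕ => q.2) heq
      have e3 : t = t' := by
        have := congrFun e1 v
        rwa [Function.update_self, Function.update_self] at this
      have e4 : y = y' := by
        funext u
        by_cases hu : u = v
        · rw [hu, e2]
        · have := congrFun e1 u
          rwa [Function.update_of_ne hu, Function.update_of_ne hu] at this
      rw [e3, e4]
  rw [Finset.card_product, Finset.card_range, mul_comm] at h2
  exact h2.trans h1

end box

/-- **R1** -/
theorem card_agree {σ ι : Type} [Fintype σ] [DecidableEq σ] (M L V K : ℕ) (hL : 1 ≤ L)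
    (c : (σ → ℕ) → ι) (hV : ∀ (v : σ) (x : σ → ℕ), Set.ncard {t : ℕ | t + 1 < M ∧
      c (Function.update x v t) ≠ c (Function.update x v (t + 1))} ≤ V)
    (A : (σ → ℕ) → Prop) (hbox : ∀ a : σ → ℕ,
      (∀ x ∈ Fintype.piFinset (fun v => Finset.Ico (a v) (a v + L)),
        ∀ y ∈ Fintype.piFinset (fun v => Finset.Ico (a v) (a v + L)), c x = c y) →
      L * Set.ncard {x : σ → ℕ | x ∈ Fintype.piFinset (fun v => Finset.Ico (a v) (a v + L)) ∧ A x} ≤
        K * L ^ Fintype.card σ) :
    L * M * Set.ncard {x : σ → ℕ | (∀ v, x v < M) ∧ A x} ≤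
      (K * M + L * Fintype.card σ * (V * L ^ Fintype.card σ + L)) * M ^ Fintype.card σ := by
  classical
  set N := Fintype.card σ with hN
  set q := M / L with hq
  have hqL : q * L ≤ M := Nat.div_mul_le_self M L
  have hqM : M < q * L + L := by
    have := Nat.lt_div_mul_add hL (a := M)
    omega
  set G : Finset (σ → ℕ) := Fintype.piFinset fun _ => range M with hG
  have hGm : ∀ x, x ∈ G ↔ ∀ v, x v < M := fun x => by
    rw [hG, Fintype.mem_piFinset]
    simp
  set Z : Finset (σ → ℕ) := Fintype.piFinset fun _ => range q with hZ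
  have hZm : ∀ x, x ∈ Z ↔ ∀ v, x v < q := fun x => by
    rw [hZ, Fintype.mem_piFinset]
    simp
  have hZc : Z.card = q ^ N := by
    rw [hZ, Fintype.card_piFinset]
    simp [hN]
  let Bx : (σ → ℕ) → Finset (σ → ℕ) := fun z =>
    Fintype.piFinset (fun v => Finset.Ico (L * z v) (L * z v + L))
  have hBm : ∀ z x, x ∈ Bx z ↔ ∀ v, L * z v ≤ x v ∧ x v < L * z v + L := fun z x => by
    show x ∈ Fintype.piFinset (fun v => Finset.Ico (L * z v) (L * z v + L)) ↔ _
    rw [Fintype.mem_piFinset]
    simp only [Finset.mem_Ico]
  have hBc : ∀ z, (Bx z).card = L ^ N := fun z => by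
    show (Fintype.piFinset (fun v => Finset.Ico (L * z v) (L * z v + L))).card = _
    rw [Fintype.card_piFinset]
    simp [hN]
  have hBdiv : ∀ z x, x ∈ Bx z → ∀ v, x v / L = z v := by
    intro z x hx v
    have h1 := (hBm z x).1 hx v
    refine Nat.div_eq_of_lt_le ?_ ?_
    · rw [mul_comm]; exact h1.1
    · rw [add_mul, one_mul, mul_comm]; exact h1.2
  let Mono : (σ → ℕ) → Prop := fun z => ∀ x ∈ Bx z, ∀ y ∈ Bx z, c x = c y
  -- the rim
  let Rim : σ → Finset (σ → ℕ) := fun v => G.filter fun x => q * L ≤ x v
  have hRim : ∀ v, M * (Rim v).card ≤ L * M ^ N := by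
    intro v
    refine card_lines M L v (Rim v) (fun x hx => (hGm x).1 (Finset.mem_filter.1 hx).1) fun x => ?_
    have h1 : ((range M).filter fun t => Function.update x v t ∈ Rim v) ⊆ Finset.Ico (q * L) M := by
      intro t ht
      rw [Finset.mem_filter, Finset.mem_range] at ht
      have h2 := (Finset.mem_filter.1 ht.2).2
      rw [Function.update_self] at h2
      rw [Finset.mem_Ico]
      exact ⟨h2, ht.1⟩
    refine (Finset.card_le_card h1).trans ?_
    rw [Nat.card_Ico]
    omega
  -- the bad edges
  let Ed : σ → Finset (σ → ℕ) := fun v =>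
    G.filter fun x => x v + 1 < M ∧ c x ≠ c (Function.update x v (x v + 1))
  have hEd : ∀ v, M * (Ed v).card ≤ V * M ^ N := by
    intro v
    refine card_lines M V v (Ed v) (fun x hx => (hGm x).1 (Finset.mem_filter.1 hx).1) fun x => ?_
    refine le_trans ?_ (hV v x)
    rw [← Set.ncard_coe_finset]
    refine Set.ncard_le_ncard ?_ ((Set.finite_lt_nat M).subset fun t ht => by
      have : t + 1 < M := ht.1
      show t < M
      omega)
    intro t ht
    rw [Finset.mem_coe, Finset.mem_filter] at ht
    have h2 := (Finset.mem_filter.1 ht.2).2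
    rw [Function.update_self, Function.update_idem] at h2
    exact h2
  have hbad : (Z.filter fun z => ¬ Mono z).card ≤ ∑ v, (Ed v).card := by
    have h1 : ∀ z ∈ Z.filter (fun z => ¬ Mono z), ∃ p : (_v : σ) × (σ → ℕ), p.2 ∈ Ed p.1 ∧ p.2 ∈ Bx z := by
      intro z hz
      rw [Finset.mem_filter, hZm] at hz
      obtain ⟨hz1, hz2⟩ := hz
      by_contra hcon
      push Not at hcon
      apply hz2
      have h2 := const_of_steps L c (fun v => L * z v) (fun x hx v hxv => by
        by_contra hne
        refine hcon ⟨v, x⟩ ?_ hx
        have hx' := (hBm z x).1 hx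
        have hlt : ∀ u, L * z u + L ≤ M := fun u => by
          calc L * z u + L = L * (z u + 1) := by ring
            _ ≤ L * q := Nat.mul_le_mul_left _ (hz1 u)
            _ ≤ M := by rw [mul_comm]; exact hqL
        rw [Finset.mem_filter, hGm]
        refine ⟨fun u => lt_of_lt_of_le (hx' u).2 (hlt u), ?_, hne⟩
        have := hlt v
        show x v + 1 < M
        have h3 : x v + 1 < L * z v + L := hxv
        omega)
      intro x hx y hy
      rw [h2 x hx, h2 y hy]
    choose p hp1 hp2 using h1
    rw [← Finset.card_sigma, ← Finset.card_attach]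
    refine Finset.card_le_card_of_injOn (fun z => p z.1 z.2) (fun z _ => ?_) fun z _ z' _ heq => ?_
    · rw [Finset.mem_coe, Finset.mem_sigma]
      exact ⟨mem_univ _, hp1 z.1 z.2⟩
    · have heq' : p z.1 z.2 = p z'.1 z'.2 := heq
      apply Subtype.ext
      funext v
      rw [← hBdiv z.1 _ (hp2 z.1 z.2) v, ← hBdiv z'.1 _ (hp2 z'.1 z'.2) v, heq']
  -- the cover
  have hcov : G.filter A ⊆ ((Z.filter Mono).biUnion fun z => (Bx z).filter A) ∪
      ((Z.filter fun z => ¬ Mono z).biUnion Bx) ∪ (univ : Finset σ).biUnion Rim := by
    intro x hx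
    rw [Finset.mem_filter] at hx
    obtain ⟨hxG, hxA⟩ := hx
    by_cases hr : ∃ v, q * L ≤ x v
    · obtain ⟨v, hv⟩ := hr
      exact Finset.mem_union_right _ (Finset.mem_biUnion.2 ⟨v, mem_univ v, Finset.mem_filter.2 ⟨hxG, hv⟩⟩)
    · push Not at hr
      set z : σ → ℕ := fun v => x v / L with hz
      have hzZ : z ∈ Z := by
        rw [hZm]
        intro v
        exact (Nat.div_lt_iff_lt_mul hL).2 (hr v)
      have hxz : x ∈ Bx z := by
        rw [hBm]
        intro v
        have h1 := Nat.div_add_mod (x v) L
        have h2 := Nat.mod_lt (x v) hL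
        show L * (x v / L) ≤ x v ∧ x v < L * (x v / L) + L
        omega
      apply Finset.mem_union_left
      by_cases hm : Mono z
      · exact Finset.mem_union_left _ (Finset.mem_biUnion.2
          ⟨z, Finset.mem_filter.2 ⟨hzZ, hm⟩, Finset.mem_filter.2 ⟨hxz, hxA⟩⟩)
      · exact Finset.mem_union_right _ (Finset.mem_biUnion.2
          ⟨z, Finset.mem_filter.2 ⟨hzZ, hm⟩, hxz⟩)
  have hmono : L * ((Z.filter Mono).biUnion fun z => (Bx z).filter A).card ≤ K * M ^ N := by
    calc L * ((Z.filter Mono).biUnion fun z => (Bx z).filter A).card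
        ≤ L * ∑ z ∈ Z.filter Mono, ((Bx z).filter A).card := Nat.mul_le_mul_left _ Finset.card_biUnion_le
      _ = ∑ z ∈ Z.filter Mono, L * ((Bx z).filter A).card := Finset.mul_sum _ _ _
      _ ≤ ∑ z ∈ Z.filter Mono, K * L ^ N := by
          refine Finset.sum_le_sum fun z hz => ?_
          have h1 := hbox (fun v => L * z v) (Finset.mem_filter.1 hz).2
          have h2 : ({x : σ → ℕ | x ∈ Fintype.piFinset (fun v => Finset.Ico (L * z v) (L * z v + L)) ∧
              A x} : Set (σ → ℕ)) = (((Bx z).filter A : Finset (σ → ℕ)) : Set (σ → ℕ)) := by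
            ext x
            simp [Bx]
          rw [h2, Set.ncard_coe_finset] at h1
          exact h1
      _ = (Z.filter Mono).card * (K * L ^ N) := by rw [Finset.sum_const, smul_eq_mul]
      _ ≤ q ^ N * (K * L ^ N) := Nat.mul_le_mul_right _ (by
          rw [← hZc]; exact Finset.card_le_card (Finset.filter_subset _ _))
      _ = K * (q * L) ^ N := by rw [mul_pow]; ring
      _ ≤ K * M ^ N := Nat.mul_le_mul_left _ (Nat.pow_le_pow_left hqL _)
  have hnon : M * ((Z.filter fun z => ¬ Mono z).biUnion Bx).card ≤ N * V * L ^ N * M ^ N := by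
    calc M * ((Z.filter fun z => ¬ Mono z).biUnion Bx).card
        ≤ M * ∑ z ∈ Z.filter (fun z => ¬ Mono z), (Bx z).card :=
          Nat.mul_le_mul_left _ Finset.card_biUnion_le
      _ = M * ((Z.filter fun z => ¬ Mono z).card * L ^ N) := by
          rw [Finset.sum_congr rfl fun z _ => hBc z, Finset.sum_const, smul_eq_mul]
      _ ≤ M * ((∑ v, (Ed v).card) * L ^ N) :=
          Nat.mul_le_mul_left _ (Nat.mul_le_mul_right _ hbad)
      _ = (∑ v, M * (Ed v).card) * L ^ N := by rw [← Finset.mul_sum]; ring
      _ ≤ (∑ _v : σ, V * M ^ N) * L ^ N :=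
          Nat.mul_le_mul_right _ (Finset.sum_le_sum fun v _ => hEd v)
      _ = N * V * L ^ N * M ^ N := by
          rw [Finset.sum_const, smul_eq_mul, Finset.card_univ]; ring
  have hrim : M * ((univ : Finset σ).biUnion Rim).card ≤ N * L * M ^ N := by
    calc M * ((univ : Finset σ).biUnion Rim).card ≤ M * ∑ v, (Rim v).card :=
          Nat.mul_le_mul_left _ Finset.card_biUnion_le
      _ = ∑ v, M * (Rim v).card := Finset.mul_sum _ _ _
      _ ≤ ∑ _v : σ, L * M ^ N := Finset.sum_le_sum fun v _ => hRim v
      _ = N * L * M ^ N := by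
          rw [Finset.sum_const, smul_eq_mul, Finset.card_univ]; ring
  have hset : ({x : σ → ℕ | (∀ v, x v < M) ∧ A x} : Set (σ → ℕ)) =
      ((G.filter A : Finset (σ → ℕ)) : Set (σ → ℕ)) := by
    ext x
    simp [hGm]
  rw [hset, Set.ncard_coe_finset]
  calc L * M * (G.filter A).card
      ≤ L * M * (((Z.filter Mono).biUnion fun z => (Bx z).filter A).card +
        ((Z.filter fun z => ¬ Mono z).biUnion Bx).card + ((univ : Finset σ).biUnion Rim).card) := by
        refine Nat.mul_le_mul_left _ ((Finset.card_le_card hcov).trans ?_)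
        exact (Finset.card_union_le _ _).trans (Nat.add_le_add_right (Finset.card_union_le _ _) _)
    _ = M * (L * ((Z.filter Mono).biUnion fun z => (Bx z).filter A).card) +
        L * (M * ((Z.filter fun z => ¬ Mono z).biUnion Bx).card) +
        L * (M * ((univ : Finset σ).biUnion Rim).card) := by ring
    _ ≤ M * (K * M ^ N) + L * (N * V * L ^ N * M ^ N) + L * (N * L * M ^ N) :=
        Nat.add_le_add (Nat.add_le_add (Nat.mul_le_mul_left _ hmono) (Nat.mul_le_mul_left _ hnon))
          (Nat.mul_le_mul_left _ hrim)
    _ = (K * M + L * N * (V * L ^ N + L)) * M ^ N := by ring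

end Pool.XI
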