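import Pool.Agent.XI.Defs
import Pool.Agent.XI.Count
import Pool.Agent.XI.Box
import Pool.Agent.XI.Circ
import Pool.Agent.XP.Assembly
import Pool.Agent.XD.CircUnifW

/-!
# XI: branching circuits on integer matrices, on average

`exists_circuit`: a branching circuit which agrees with a polynomial on more than a fraction
`2 ^ (-a)` of the points of a large grid yields a circuit without branches for this polynomial.
`xi`: the lower bound for the permanent.
-/

set_option autoImplicit false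

namespace Pool.XI

open Finset

/-- **many agreements give a circuit without branches** -/
theorem exists_circuit {σ : Type} [Fintype σ] [DecidableEq σ] {d w b D s : ℕ}
    {F : Fin s → (σ → ℂ) → ℂ} {o : Fin s} (hF : IsBranching d w b D F o) (R : MvPolynomial σ ℂ)
    {M L K a : ℕ} (hM : 1 ≤ M) (hL : 1 ≤ L) (hD : D ≤ K) (hR : R.totalDegree ≤ K)
    (h1 : 2 ^ (a + 1) * K ≤ L)
    (h2 : 2 ^ (a + 1) * Fintype.card σ * ((1 + 2 * s * D) ^ b * L ^ Fintype.card σ + L) ≤ M)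
    (h : M ^ Fintype.card σ < 2 ^ a * Set.ncard {x : σ → ℕ | (∀ v, x v < M) ∧
      F o (pt x) = MvPolynomial.eval (pt x) R}) :
    ∃ P' : Fin s → MvPolynomial σ ℂ, Pool.QPIT.IsCircuitW d w P' ∧ P' o = R := by
  classical
  obtain ⟨c, P, hc, hP, hFP, hcirc⟩ := exists_pattern hF M
  by_contra hcon
  have hne : ∀ τ, P τ ≠ R := by
    intro τ hτ
    obtain ⟨P', hP', hP'o⟩ := hcirc τ
    exact hcon ⟨P', hP', hP'o.trans hτ⟩
  have h3 := card_agree (σ := σ) M L ((1 + 2 * s * D) ^ b) K hL c hc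
    (fun x => F o (pt x) = MvPolynomial.eval (pt x) R) (fun y hy => by
      have hyy : y ∈ Fintype.piFinset (fun v => Finset.Ico (y v) (y v + L)) := by
        rw [Fintype.mem_piFinset]
        intro v
        rw [Finset.mem_Ico]
        omega
      have h4 := card_zeros_box (P (c y) - R) (sub_ne_zero.2 (hne _)) L y
      have h5 : {x : σ → ℕ | x ∈ Fintype.piFinset (fun v => Finset.Ico (y v) (y v + L)) ∧
          F o (pt x) = MvPolynomial.eval (pt x) R} ⊆
          ↑((Fintype.piFinset fun v => Finset.Ico (y v) (y v + L)).filter fun x : σ → ℕ =>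
            MvPolynomial.eval (pt x) (P (c y) - R) = 0) := by
        rintro x ⟨hx1, hx2⟩
        rw [Finset.mem_coe, mem_filter]
        refine ⟨hx1, ?_⟩
        rw [map_sub, sub_eq_zero, ← hx2, hFP x, hy x hx1 y hyy]
      have h6 := Set.ncard_le_ncard h5 (Finset.finite_toSet _)
      rw [Set.ncard_coe_finset] at h6
      refine (Nat.mul_le_mul_left L h6).trans (h4.trans (Nat.mul_le_mul_right _ ?_))
      refine (MvPolynomial.totalDegree_sub _ _).trans (max_le ((hP _).trans hD) hR))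
  set A := Set.ncard {x : σ → ℕ | (∀ v, x v < M) ∧ F o (pt x) = MvPolynomial.eval (pt x) R}
    with hA
  set N := Fintype.card σ with hN
  set Z := (1 + 2 * s * D) ^ b * L ^ N + L with hZ
  have hMN : 0 < M ^ N := pow_pos hM N
  have h4 : 2 * (2 ^ a * (K * M + L * N * Z)) ≤ 2 * (L * M) := by
    have e1 : 2 * (2 ^ a * (K * M + L * N * Z)) =
        (2 ^ (a + 1) * K) * M + L * (2 ^ (a + 1) * N * Z) := by ring
    have e2 : 2 * (L * M) = L * M + L * M := by ring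
    rw [e1, e2]
    exact Nat.add_le_add (Nat.mul_le_mul_right _ h1) (Nat.mul_le_mul_left _ h2)
  have h5 : 2 ^ a * (K * M + L * N * Z) ≤ L * M := Nat.le_of_mul_le_mul_left h4 (by norm_num)
  have h6 : L * M * M ^ N < L * M * M ^ N := by
    calc L * M * M ^ N < L * M * (2 ^ a * A) :=
          Nat.mul_lt_mul_of_pos_left h (Nat.mul_pos hL hM)
      _ = 2 ^ a * (L * M * A) := by ring
      _ ≤ 2 ^ a * ((K * M + L * N * Z) * M ^ N) := Nat.mul_le_mul_left _ h3
      _ = 2 ^ a * (K * M + L * N * Z) * M ^ N := by ring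
      _ ≤ L * M * M ^ N := Nat.mul_le_mul_right _ h5
  exact lt_irrefl _ h6

/-- the numbers -/
theorem num_le {n a b s D : ℕ} (hn : 1 ≤ n) (ha : n ≤ a) (hs : s ≤ 2 ^ a) (hD : D ≤ 2 ^ a) :
    2 ^ (a + 1) * n ^ 2 * ((1 + 2 * s * D) ^ b * (2 ^ (2 * a + 1)) ^ n ^ 2 + 2 ^ (2 * a + 1)) ≤
      2 ^ (4 * a * (b + n ^ 2 + 1)) := by
  have ha1 : 1 ≤ a := hn.trans ha
  obtain ⟨N, hN⟩ : ∃ N, N = n ^ 2 := ⟨_, rfl⟩
  have hN1 : 1 ≤ N := by
    rw [hN]
    exact Nat.one_le_pow _ _ hn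
  have hN2 : N ≤ 2 ^ (2 * a) := by
    rw [hN, mul_comm 2 a, pow_mul]
    refine Nat.pow_le_pow_left ?_ 2
    exact (Nat.lt_two_pow_self.le : n ≤ 2 ^ n).trans (Nat.pow_le_pow_right (by norm_num) ha)
  rw [← hN]
  have h1 : 1 + 2 * s * D ≤ 2 ^ (2 * a + 2) := by
    have h2 : s * D ≤ 2 ^ a * 2 ^ a := Nat.mul_le_mul hs hD
    have h3 : 2 ^ (2 * a + 2) = 4 * (2 ^ a * 2 ^ a) := by ring
    have h4 : 1 ≤ 2 ^ a * 2 ^ a := Nat.mul_pos (by positivity) (by positivity)
    rw [h3]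
    nlinarith
  have h2 : (1 + 2 * s * D) ^ b ≤ 2 ^ ((2 * a + 2) * b) := by
    rw [pow_mul]
    exact Nat.pow_le_pow_left h1 b
  have h3 : (1 + 2 * s * D) ^ b * (2 ^ (2 * a + 1)) ^ N + 2 ^ (2 * a + 1) ≤
      2 * (2 ^ ((2 * a + 2) * b) * 2 ^ ((2 * a + 1) * N)) := by
    rw [← pow_mul 2 (2 * a + 1) N, two_mul (2 ^ ((2 * a + 2) * b) * 2 ^ ((2 * a + 1) * N))]
    refine Nat.add_le_add (Nat.mul_le_mul_right _ h2) ?_
    calc 2 ^ (2 * a + 1) ≤ 2 ^ ((2 * a + 1) * N) :=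
          Nat.pow_le_pow_right (by norm_num) (Nat.le_mul_of_pos_right _ hN1)
      _ ≤ 2 ^ ((2 * a + 2) * b) * 2 ^ ((2 * a + 1) * N) :=
          Nat.le_mul_of_pos_left _ (by positivity)
  calc 2 ^ (a + 1) * N * ((1 + 2 * s * D) ^ b * (2 ^ (2 * a + 1)) ^ N + 2 ^ (2 * a + 1)) ≤
      2 ^ (a + 1) * 2 ^ (2 * a) * (2 * (2 ^ ((2 * a + 2) * b) * 2 ^ ((2 * a + 1) * N))) :=
        Nat.mul_le_mul (Nat.mul_le_mul_left _ hN2) h3
    _ = 2 ^ (a + 1 + 2 * a + 1 + (2 * a + 2) * b + (2 * a + 1) * N) := by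
        generalize (2 * a + 2) * b = u
        generalize (2 * a + 1) * N = v
        generalize 2 * a = t
        rw [pow_add 2 (a + 1 + t + 1 + u) v, pow_add 2 (a + 1 + t + 1) u, pow_succ 2 (a + 1 + t),
          pow_add 2 (a + 1) t]
        ring
    _ ≤ 2 ^ (4 * a * (b + N + 1)) := by
        refine Nat.pow_le_pow_right (by norm_num) ?_
        obtain ⟨a', rfl⟩ : ∃ a', a = a' + 1 := ⟨a - 1, by omega⟩
        obtain ⟨N', rfl⟩ : ∃ N', N = N' + 1 := ⟨N - 1, by omega⟩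
        nlinarith [Nat.zero_le (a' * b), Nat.zero_le (a' * N')]

theorem permP_totalDegree_le (n : ℕ) (K : Type) [CommRing K] :
    (Pool.CDep.permP n K).totalDegree ≤ n := by
  unfold Pool.CDep.permP
  refine (MvPolynomial.totalDegree_finsetSum _ _).trans (Finset.sup_le fun π _ => ?_)
  refine (MvPolynomial.totalDegree_finsetProd _ _).trans ?_
  refine (Finset.sum_le_card_nsmul _ _ 1 fun i _ => ?_).trans (by simp)
  rcases subsingleton_or_nontrivial K with h | h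
  · have : (MvPolynomial.X (π i, i) : MvPolynomial (Fin n × Fin n) K) = 0 :=
      Subsingleton.elim _ _
    simp [this]
  · exact (MvPolynomial.totalDegree_X _).le

/-- **THE PERMANENT OF INTEGER MATRICES IS HARD ON AVERAGE FOR BRANCHING CIRCUITS** -/
theorem xi : ∃ c : ℝ, 0 < c ∧ ∀ (d w b a n s M : ℕ) (F : Fin s → (Fin n × Fin n → ℂ) → ℂ)
    (o : Fin s), 1 ≤ w → n ≤ a → IsBranching (d + 1) w b (2 ^ a) F o →
    2 ^ (4 * a * (b + n ^ 2 + 1)) ≤ M →
    M ^ n ^ 2 < 2 ^ a * Set.ncard {x : Fin n × Fin n → ℕ | (∀ v, x v < M) ∧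
      F o (pt x) = MvPolynomial.eval (pt x) (Pool.CDep.permP n ℂ)} →
    Real.exp (c * (n : ℝ) ^ (1 / (((Nat.fib (2 * d + 4) - 2 : ℕ) : ℝ) + 1))) ≤
      s + (n : ℝ) ^ w := by
  obtain ⟨C₂, hC₂, h₂⟩ := Pool.XP.xp
  obtain ⟨c₂, hc₂, h₂'⟩ := Pool.XD.circ_unifW (fun k => Nat.fib (2 * k + 4) - 2) hC₂
    (fun K _ n F => ∃ (Γ : Type) (_ : LinearOrderedCommGroupWithZero Γ) (v : Valuation K Γ),
      (∀ a : ℕ, a ≠ 0 → v a = 1) ∧ ∀ m, v (MvPolynomial.coeff m (F - Pool.CDep.permP n K)) < 1)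
    (fun k w K _ n T S f hw _ _ hS hf hQ => by
      obtain ⟨Γ, _, v, hv, hF⟩ := hQ
      exact h₂ k K Γ v n T S w w f hv hS hw hw hf hF)
  refine ⟨min c₂ (Real.log 2), lt_min hc₂ (Real.log_pos (by norm_num)), ?_⟩
  intro d w b a n s M F o hw ha hF hM hA
  set p : ℝ := 1 / (((Nat.fib (2 * d + 4) - 2 : ℕ) : ℝ) + 1) with hp
  have hp0 : 0 < p := by positivity
  have hp1 : p ≤ 1 := by
    rw [hp, div_le_one (by positivity)]
    have : (0 : ℝ) ≤ ((Nat.fib (2 * d + 4) - 2 : ℕ) : ℝ) := Nat.cast_nonneg _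
    linarith
  have hs : 1 ≤ s := by
    have := o.2
    omega
  have hs1 : (1 : ℝ) ≤ s := by exact_mod_cast hs
  rcases Nat.eq_zero_or_pos n with rfl | hn
  · rw [Nat.cast_zero, Real.zero_rpow hp0.ne', mul_zero, Real.exp_zero]
    have : (0 : ℝ) ≤ (0 : ℝ) ^ w := by positivity
    linarith
  have hn1 : (1 : ℝ) ≤ n := by exact_mod_cast hn
  have hnp : (n : ℝ) ^ p ≤ n := by
    calc (n : ℝ) ^ p ≤ (n : ℝ) ^ (1 : ℝ) := Real.rpow_le_rpow_of_exponent_le hn1 hp1
      _ = n := Real.rpow_one _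
  have hnp0 : 0 ≤ (n : ℝ) ^ p := by positivity
  by_contra hcon
  rw [not_le] at hcon
  have hsa : s ≤ 2 ^ a := by
    have h1 : (s : ℝ) < 2 ^ n := by
      have h2 : (0 : ℝ) ≤ (n : ℝ) ^ w := by positivity
      calc (s : ℝ) ≤ s + (n : ℝ) ^ w := by linarith
        _ < Real.exp (min c₂ (Real.log 2) * (n : ℝ) ^ p) := hcon
        _ ≤ Real.exp (Real.log 2 * n) := by
            refine Real.exp_le_exp.2 (mul_le_mul (min_le_right _ _) hnp hnp0
              (Real.log_nonneg (by norm_num)))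
        _ = 2 ^ n := by
            rw [mul_comm, Real.exp_nat_mul, Real.exp_log (by norm_num)]
    have h3 : s < 2 ^ n := by exact_mod_cast h1
    exact h3.le.trans (Nat.pow_le_pow_right (by norm_num) ha)
  have hcard : Fintype.card (Fin n × Fin n) = n ^ 2 := by
    rw [Fintype.card_prod, Fintype.card_fin, sq]
  have hM1 : 1 ≤ M := le_trans (Nat.one_le_two_pow) hM
  have hn2 : n ≤ 2 ^ a := ha.trans Nat.lt_two_pow_self.le
  obtain ⟨P', hP', hP'o⟩ := exists_circuit hF (Pool.CDep.permP n ℂ) (M := M)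
    (L := 2 ^ (2 * a + 1)) (K := 2 ^ a) (a := a) hM1 Nat.one_le_two_pow le_rfl
    ((permP_totalDegree_le n ℂ).trans hn2) (le_of_eq (by ring))
    (by
      rw [hcard]
      exact (num_le hn ha hsa le_rfl).trans hM)
    (by
      rw [hcard]
      exact hA)
  have h5 := h₂' d w ℂ n s P' hw hP' ⟨o, WithZero (Multiplicative ℤ), inferInstance,
    (1 : Valuation ℂ (WithZero (Multiplicative ℤ))), fun m hm => by
      rw [Valuation.one_apply_of_ne_zero (Nat.cast_ne_zero.2 hm)], fun m => by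
      rw [hP'o, sub_self, MvPolynomial.coeff_zero, map_zero]
      exact zero_lt_one⟩
  have h6 : Real.exp (min c₂ (Real.log 2) * (n : ℝ) ^ p) ≤ Real.exp (c₂ * (n : ℝ) ^ p) :=
    Real.exp_le_exp.2 (mul_le_mul_of_nonneg_right (min_le_left _ _) hnp0)
  exact absurd (h6.trans h5) (not_le.2 hcon)

end Pool.XI
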