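import Mathlib

/-!
# XI: branching circuits at integer points: definitions

`IsBranching d w b D F o`: the functions `F 0, ..., F (s - 1)` are the gates of a circuit with
branches; at most `d` products and arbitrary gates on each path of values to the gate `o`
(conditions are not counted), conditions nested at most `b` times, formal degrees at most `D`.
-/

set_option autoImplicit false

namespace Pool.XI

open Finset

/-- A circuit with branches. The gate `g` is a linear combination of `1`, of the variables and of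
earlier gates, or a product of powers of variables and of earlier gates, or a polynomial in `w`
earlier gates, or a branch: the gate `h` where the real part of the gate `f` is positive, the gate
`k` elsewhere. -/
def IsBranching {σ : Type} [Fintype σ] (d w b D : ℕ) {s : ℕ} (F : Fin s → (σ → ℂ) → ℂ)
    (o : Fin s) : Prop :=
  ∃ lev br deg : Fin s → ℕ, lev o ≤ d ∧ ∀ g, br g ≤ b ∧ 1 ≤ deg g ∧ deg g ≤ D ∧
    ((∃ (a₀ : ℂ) (a : σ → ℂ) (c : Fin s → ℂ),
        (∀ h, c h ≠ 0 → h < g ∧ lev h ≤ lev g ∧ br h ≤ br g ∧ deg h ≤ deg g) ∧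
        ∀ x, F g x = a₀ + ∑ v, a v * x v + ∑ h, c h * F h x) ∨
     (∃ (a₀ : ℂ) (a : σ → ℕ) (e : Fin s → ℕ), 0 < lev g ∧
        (∀ h, e h ≠ 0 → h < g ∧ lev h < lev g ∧ br h ≤ br g) ∧
        ∑ v, a v + ∑ h, e h * deg h ≤ deg g ∧
        ∀ x, F g x = a₀ * (∏ v, x v ^ a v) * ∏ h, F h x ^ e h) ∨
     (∃ (t : Fin w → Fin s) (Q : MvPolynomial (Fin w) ℂ), 0 < lev g ∧
        (∀ i, t i < g ∧ lev (t i) < lev g ∧ br (t i) ≤ br g ∧ Q.totalDegree * deg (t i) ≤ deg g) ∧
        ∀ x, F g x = MvPolynomial.eval (fun i => F (t i) x) Q) ∨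
     (∃ f h k : Fin s, f < g ∧ h < g ∧ k < g ∧ br f < br g ∧ br h ≤ br g ∧ br k ≤ br g ∧
        lev h ≤ lev g ∧ lev k ≤ lev g ∧ deg h ≤ deg g ∧ deg k ≤ deg g ∧
        ∀ x, F g x = if 0 < (F f x).re then F h x else F k x))

/-- an integer point as a complex point -/
def pt {σ : Type} (x : σ → ℕ) : σ → ℂ := fun v => (x v : ℂ)

end Pool.XI
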