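import Pool.Agent.XI.RCirc
import Pool.Agent.XI.Assembly
import Pool.Agent.XN.Final

/-!
# XI: real branching circuits with division on integer matrices, on average

`exists_netR`: a real branching circuit with division which agrees with a polynomial on more than a
fraction `2 ^ (-a)` of the points of a large grid yields a network of piecewise smooth gates which
computes this polynomial outside of the zeros of a polynomial.
`xiR`: the lower bound for the permanent.
-/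

set_option autoImplicit false

namespace Pool.XI

open Finset MeasureTheory

/-- **networks of piecewise smooth gates which compute the permanent on a set of positive
measure** -/
theorem net_volume : ∃ c : ℝ, 0 < c ∧ ∀ (k n w s : ℕ) (P : Fin s → (Fin n × Fin n → ℝ) → ℝ),
    1 ≤ w → Pool.XN.IsNet (fun φ => Pool.SM.PS n φ) (k + 1) w P → ∀ g,
    volume {x | P g x = Pool.XN.permF n x} ≠ 0 →
    Real.exp (c * (n : ℝ) ^ (1 / (((Nat.fib (2 * k + 4) - 2 : ℕ) : ℝ) + 1))) ≤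
      s + (n : ℝ) ^ w := by
  obtain ⟨c, hc, h⟩ := Pool.XN.null_xp
  refine ⟨c, hc, fun k n w s P hw hP g hg => ?_⟩
  have hs : 1 ≤ s := by
    have := g.2
    omega
  rcases Nat.eq_zero_or_pos n with rfl | hn
  · have hp : (0 : ℝ) < 1 / (((Nat.fib (2 * k + 4) - 2 : ℕ) : ℝ) + 1) := by positivity
    rw [Nat.cast_zero, Real.zero_rpow hp.ne', mul_zero, Real.exp_zero]
    have h1 : (1 : ℝ) ≤ s := by exact_mod_cast hs
    have h2 : (0 : ℝ) ≤ (0 : ℝ) ^ w := by positivity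
    linarith
  obtain ⟨m, rfl⟩ : ∃ m, n = m + 1 := ⟨n - 1, by omega⟩
  by_contra hlt
  rw [not_le] at hlt
  apply hg
  obtain ⟨G, hG, hGP⟩ := Pool.XN.net_sum (S := s + (m + 1) ^ 2 + 1) hw
    (by rw [Fintype.card_prod, Fintype.card_fin, sq]) hP g
  have hE := fun l => h k m 1 w s (G l) le_rfl hw hs (hG l) (by exact_mod_cast hlt)
  refine measure_mono_null (fun x hx => ?_) (measure_iUnion_null fun l => (hE l).2)
  obtain ⟨l, hl⟩ := hGP x
  exact Set.mem_iUnion.2 ⟨l, hl.symm.trans hx⟩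

/-- **many agreements give a network** -/
theorem exists_netR {σ : Type} [Fintype σ] [DecidableEq σ] {d w b D s : ℕ} (m₀ : ℕ) (hw : 1 ≤ w)
    {F : Fin s → (σ → ℝ) → ℝ} {o : Fin s} (hF : IsBranchingR d w b D F o) (R : MvPolynomial σ ℝ)
    {M L K a : ℕ} (hM : 1 ≤ M) (hL : 1 ≤ L) (hD : R.totalDegree + D ≤ K)
    (h1 : 2 ^ (a + 1) * K ≤ L)
    (h2 : 2 ^ (a + 1) * Fintype.card σ * ((1 + 4 * s * D) ^ b * L ^ Fintype.card σ + L) ≤ M)
    (h : M ^ Fintype.card σ < 2 ^ a * Set.ncard {x : σ → ℕ | (∀ v, x v < M) ∧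
      F o (ptR x) = MvPolynomial.eval (ptR x) R}) :
    ∃ (P' : Fin s → (σ → ℝ) → ℝ) (W : MvPolynomial σ ℝ), W ≠ 0 ∧
      Pool.XN.IsNet (fun φ => Pool.SM.PS m₀ φ) d w P' ∧
      ∀ x, MvPolynomial.eval x W ≠ 0 → P' o x = MvPolynomial.eval x R := by
  classical
  obtain ⟨c, P, hc, hP, hFP, hcirc⟩ := exists_patternR hw hF M m₀
  by_contra hcon
  have hne : ∀ y, (P (c y)).1 - R * (P (c y)).2 ≠ 0 := by
    intro y hy
    obtain ⟨P', W, hW, hP', hP'o⟩ := hcirc y
    refine hcon ⟨P', W, hW, hP', fun x hx => ?_⟩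
    obtain ⟨e1, e2⟩ := hP'o x hx
    rw [e2, sub_eq_zero.1 hy, map_mul, mul_div_assoc, div_self e1, mul_one]
  have h3 := card_agree (σ := σ) M L ((1 + 4 * s * D) ^ b) K hL c hc
    (fun x => F o (ptR x) = MvPolynomial.eval (ptR x) R) (fun y hy => by
      have hyy : y ∈ Fintype.piFinset (fun v => Finset.Ico (y v) (y v + L)) := by
        rw [Fintype.mem_piFinset]
        intro v
        rw [Finset.mem_Ico]
        omega
      set Q := (P (c y)).1 - R * (P (c y)).2 with hQ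
      have hinj : Function.Injective (algebraMap ℝ ℂ) := (algebraMap ℝ ℂ).injective
      have h4 := card_zeros_box (MvPolynomial.map (algebraMap ℝ ℂ) Q)
        ((map_ne_zero_iff _ (MvPolynomial.map_injective _ hinj)).2 (hne y)) L y
      have hev : ∀ x : σ → ℕ, MvPolynomial.eval (pt x) (MvPolynomial.map (algebraMap ℝ ℂ) Q) =
          algebraMap ℝ ℂ (MvPolynomial.eval (ptR x) Q) := by
        intro x
        have e1 : pt x = fun i => algebraMap ℝ ℂ (ptR x i) := by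
          funext i
          show ((x i : ℕ) : ℂ) = algebraMap ℝ ℂ ((x i : ℕ) : ℝ)
          rw [map_natCast]
        rw [e1, MvPolynomial.eval_map]
        have e3 := MvPolynomial.eval₂_comp_left (algebraMap ℝ ℂ) (RingHom.id ℝ) (ptR x) Q
        rw [RingHom.comp_id] at e3
        exact e3.symm
      have h5 : {x : σ → ℕ | x ∈ Fintype.piFinset (fun v => Finset.Ico (y v) (y v + L)) ∧
          F o (ptR x) = MvPolynomial.eval (ptR x) R} ⊆
          ↑((Fintype.piFinset fun v => Finset.Ico (y v) (y v + L)).filter fun x : σ → ℕ =>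
            MvPolynomial.eval (pt x) (MvPolynomial.map (algebraMap ℝ ℂ) Q) = 0) := by
        rintro x ⟨hx1, hx2⟩
        rw [Finset.mem_coe, mem_filter]
        refine ⟨hx1, ?_⟩
        rw [hev]
        have e4 := hFP x
        rw [hy x hx1 y hyy] at e4
        have e5 : MvPolynomial.eval (ptR x) Q = 0 := by
          rw [hQ, map_sub, map_mul, ← hx2, e4.2, div_mul_cancel₀ _ e4.1, sub_self]
        rw [e5, map_zero]
      have h6 := Set.ncard_le_ncard h5 (Finset.finite_toSet _)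
      rw [Set.ncard_coe_finset] at h6
      refine (Nat.mul_le_mul_left L h6).trans (h4.trans (Nat.mul_le_mul_right _ ?_))
      refine le_trans (Finset.sup_mono (MvPolynomial.support_map_subset _ _)) ?_
      refine (MvPolynomial.totalDegree_sub _ _).trans (max_le ?_ ?_)
      · exact (hP _).1.trans (le_trans (Nat.le_add_left _ _) hD)
      · exact (MvPolynomial.totalDegree_mul _ _).trans
          (le_trans (Nat.add_le_add_left (hP _).2 _) hD))
  set A := Set.ncard {x : σ → ℕ | (∀ v, x v < M) ∧ F o (ptR x) = MvPolynomial.eval (ptR x) R}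
    with hA
  set N := Fintype.card σ with hN
  set Z := (1 + 4 * s * D) ^ b * L ^ N + L with hZ
  have h4 : 2 * (2 ^ a * (K * M + L * N * Z)) ≤ 2 * (L * M) := by
    have e1 : 2 * (2 ^ a * (K * M + L * N * Z)) =
        (2 ^ (a + 1) * K) * M + L * (2 ^ (a + 1) * N * Z) := by ring
    have e2 : 2 * (L * M) = L * M + L * M := by ring
    rw [e1, e2]
    exact Nat.add_le_add (Nat.mul_le_mul_right _ h1) (Nat.mul_le_mul_left _ h2)
  have h5 : 2 ^ a * (K * M + L * N * Z) ≤ L * M := Nat.le_of_mul_le_mul_left h4 (by norm_num)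
  have h6 : L * M * M ^ N < L * M * M ^ N := by
    calc L * M * M ^ N < L * M * (2 ^ a * A) :=
          Nat.mul_lt_mul_of_pos_left h (Nat.mul_pos hL hM)
      _ = 2 ^ a * (L * M * A) := by ring
      _ ≤ 2 ^ a * ((K * M + L * N * Z) * M ^ N) := Nat.mul_le_mul_left _ h3
      _ = 2 ^ a * (K * M + L * N * Z) * M ^ N := by ring
      _ ≤ L * M * M ^ N := Nat.mul_le_mul_right _ h5
  exact lt_irrefl _ h6

/-- the numbers -/
theorem num_leR {n a b s D : ℕ} (hn : 1 ≤ n) (ha : n ≤ a) (hs : s ≤ 2 ^ a) (hD : D ≤ 2 ^ a) :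
    2 ^ (a + 1) * n ^ 2 * ((1 + 4 * s * D) ^ b * (2 ^ (2 * a + 2)) ^ n ^ 2 + 2 ^ (2 * a + 2)) ≤
      2 ^ (5 * a * (b + n ^ 2 + 1)) := by
  have ha1 : 1 ≤ a := hn.trans ha
  obtain ⟨N, hN⟩ : ∃ N, N = n ^ 2 := ⟨_, rfl⟩
  have hN1 : 1 ≤ N := by
    rw [hN]
    exact Nat.one_le_pow _ _ hn
  have hN2 : N ≤ 2 ^ (2 * a) := by
    rw [hN, mul_comm 2 a, pow_mul]
    refine Nat.pow_le_pow_left ?_ 2
    exact (Nat.lt_two_pow_self.le : n ≤ 2 ^ n).trans (Nat.pow_le_pow_right (by norm_num) ha)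
  rw [← hN]
  have h1 : 1 + 4 * s * D ≤ 2 ^ (2 * a + 3) := by
    have h2 : s * D ≤ 2 ^ a * 2 ^ a := Nat.mul_le_mul hs hD
    have h3 : 2 ^ (2 * a + 3) = 8 * (2 ^ a * 2 ^ a) := by ring
    have h4 : 1 ≤ 2 ^ a * 2 ^ a := Nat.mul_pos (by positivity) (by positivity)
    rw [h3]
    nlinarith
  have h2 : (1 + 4 * s * D) ^ b ≤ 2 ^ ((2 * a + 3) * b) := by
    rw [pow_mul]
    exact Nat.pow_le_pow_left h1 b
  have h3 : (1 + 4 * s * D) ^ b * (2 ^ (2 * a + 2)) ^ N + 2 ^ (2 * a + 2) ≤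
      2 * (2 ^ ((2 * a + 3) * b) * 2 ^ ((2 * a + 2) * N)) := by
    rw [← pow_mul 2 (2 * a + 2) N, two_mul (2 ^ ((2 * a + 3) * b) * 2 ^ ((2 * a + 2) * N))]
    refine Nat.add_le_add (Nat.mul_le_mul_right _ h2) ?_
    calc 2 ^ (2 * a + 2) ≤ 2 ^ ((2 * a + 2) * N) :=
          Nat.pow_le_pow_right (by norm_num) (Nat.le_mul_of_pos_right _ hN1)
      _ ≤ 2 ^ ((2 * a + 3) * b) * 2 ^ ((2 * a + 2) * N) :=
          Nat.le_mul_of_pos_left _ (by positivity)
  calc 2 ^ (a + 1) * N * ((1 + 4 * s * D) ^ b * (2 ^ (2 * a + 2)) ^ N + 2 ^ (2 * a + 2)) ≤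
      2 ^ (a + 1) * 2 ^ (2 * a) * (2 * (2 ^ ((2 * a + 3) * b) * 2 ^ ((2 * a + 2) * N))) :=
        Nat.mul_le_mul (Nat.mul_le_mul_left _ hN2) h3
    _ = 2 ^ (a + 1 + 2 * a + 1 + (2 * a + 3) * b + (2 * a + 2) * N) := by
        generalize (2 * a + 3) * b = u
        generalize (2 * a + 2) * N = v
        generalize 2 * a = t
        rw [pow_add 2 (a + 1 + t + 1 + u) v, pow_add 2 (a + 1 + t + 1) u, pow_succ 2 (a + 1 + t),
          pow_add 2 (a + 1) t]
        ring
    _ ≤ 2 ^ (5 * a * (b + N + 1)) := by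
        refine Nat.pow_le_pow_right (by norm_num) ?_
        obtain ⟨a', rfl⟩ : ∃ a', a = a' + 1 := ⟨a - 1, by omega⟩
        obtain ⟨N', rfl⟩ : ∃ N', N = N' + 1 := ⟨N - 1, by omega⟩
        nlinarith [Nat.zero_le (a' * b), Nat.zero_le (a' * N')]

/-- **THE PERMANENT OF INTEGER MATRICES IS HARD ON AVERAGE FOR REAL CIRCUITS WITH DIVISION AND
BRANCHING** -/
theorem xiR : ∃ c : ℝ, 0 < c ∧ ∀ (d w b a n s M : ℕ) (F : Fin s → (Fin n × Fin n → ℝ) → ℝ)
    (o : Fin s), 1 ≤ w → n ≤ a → IsBranchingR (d + 1) w b (2 ^ a) F o →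
    2 ^ (5 * a * (b + n ^ 2 + 1)) ≤ M →
    M ^ n ^ 2 < 2 ^ a * Set.ncard {x : Fin n × Fin n → ℕ | (∀ v, x v < M) ∧
      F o (ptR x) = MvPolynomial.eval (ptR x) (Pool.CDep.permP n ℝ)} →
    Real.exp (c * (n : ℝ) ^ (1 / (((Nat.fib (2 * d + 4) - 2 : ℕ) : ℝ) + 1))) ≤
      s + (n : ℝ) ^ w := by
  obtain ⟨c₂, hc₂, h₂⟩ := net_volume
  refine ⟨min c₂ (Real.log 2), lt_min hc₂ (Real.log_pos (by norm_num)), ?_⟩
  intro d w b a n s M F o hw ha hF hM hA
  set p : ℝ := 1 / (((Nat.fib (2 * d + 4) - 2 : ℕ) : ℝ) + 1) with hp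
  have hp0 : 0 < p := by positivity
  have hp1 : p ≤ 1 := by
    rw [hp, div_le_one (by positivity)]
    have : (0 : ℝ) ≤ ((Nat.fib (2 * d + 4) - 2 : ℕ) : ℝ) := Nat.cast_nonneg _
    linarith
  have hs : 1 ≤ s := by
    have := o.2
    omega
  have hs1 : (1 : ℝ) ≤ s := by exact_mod_cast hs
  rcases Nat.eq_zero_or_pos n with rfl | hn
  · rw [Nat.cast_zero, Real.zero_rpow hp0.ne', mul_zero, Real.exp_zero]
    have : (0 : ℝ) ≤ (0 : ℝ) ^ w := by positivity
    linarith
  have hn1 : (1 : ℝ) ≤ n := by exact_mod_cast hn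
  have hnp : (n : ℝ) ^ p ≤ n := by
    calc (n : ℝ) ^ p ≤ (n : ℝ) ^ (1 : ℝ) := Real.rpow_le_rpow_of_exponent_le hn1 hp1
      _ = n := Real.rpow_one _
  have hnp0 : 0 ≤ (n : ℝ) ^ p := by positivity
  by_contra hcon
  rw [not_le] at hcon
  have hsa : s ≤ 2 ^ a := by
    have h1 : (s : ℝ) < 2 ^ n := by
      have h2 : (0 : ℝ) ≤ (n : ℝ) ^ w := by positivity
      calc (s : ℝ) ≤ s + (n : ℝ) ^ w := by linarith
        _ < Real.exp (min c₂ (Real.log 2) * (n : ℝ) ^ p) := hcon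
        _ ≤ Real.exp (Real.log 2 * n) := by
            refine Real.exp_le_exp.2 (mul_le_mul (min_le_right _ _) hnp hnp0
              (Real.log_nonneg (by norm_num)))
        _ = 2 ^ n := by
            rw [mul_comm, Real.exp_nat_mul, Real.exp_log (by norm_num)]
    have h3 : s < 2 ^ n := by exact_mod_cast h1
    exact h3.le.trans (Nat.pow_le_pow_right (by norm_num) ha)
  have hcard : Fintype.card (Fin n × Fin n) = n ^ 2 := by
    rw [Fintype.card_prod, Fintype.card_fin, sq]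
  have hM1 : 1 ≤ M := le_trans (Nat.one_le_two_pow) hM
  have hn2 : n ≤ 2 ^ a := ha.trans Nat.lt_two_pow_self.le
  obtain ⟨P', W, hW, hP', hP'o⟩ := exists_netR n hw hF (Pool.CDep.permP n ℝ) (M := M)
    (L := 2 ^ (2 * a + 2)) (K := 2 ^ (a + 1)) (a := a) hM1 Nat.one_le_two_pow
    (by
      have h1 := (permP_totalDegree_le n ℝ).trans hn2
      have h2 : 2 ^ (a + 1) = 2 ^ a + 2 ^ a := by ring
      omega) (le_of_eq (by ring))
    (by
      rw [hcard]
      exact (num_leR hn ha hsa le_rfl).trans hM)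
    (by
      rw [hcard]
      exact hA)
  have hopen : IsOpen {x : Fin n × Fin n → ℝ | MvPolynomial.eval x W ≠ 0} :=
    isOpen_ne_fun (MvPolynomial.continuous_eval W) continuous_const
  have hnonempty : {x : Fin n × Fin n → ℝ | MvPolynomial.eval x W ≠ 0}.Nonempty := by
    by_contra hemp
    rw [Set.not_nonempty_iff_eq_empty] at hemp
    apply hW
    refine MvPolynomial.funext fun x => ?_
    rw [map_zero]
    by_contra h0
    have : x ∈ {x : Fin n × Fin n → ℝ | MvPolynomial.eval x W ≠ 0} := h0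
    rw [hemp] at this
    exact this
  have hpos : volume {x | P' o x = Pool.XN.permF n x} ≠ 0 := by
    have h1 := hopen.measure_pos volume hnonempty
    refine (lt_of_lt_of_le h1 (measure_mono fun x hx => ?_)).ne'
    show P' o x = Pool.XN.permF n x
    rw [hP'o x hx]
    unfold Pool.CDep.permP
    rw [Pool.CDep.map_permanent']
    show _ = (Matrix.of fun a b => x (a, b)).permanent
    congr 1
    ext i j
    rw [Matrix.map_apply, Matrix.of_apply, Matrix.of_apply, MvPolynomial.eval_X]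
  have h5 := h₂ d n w s P' hw hP' o hpos
  have h6 : Real.exp (min c₂ (Real.log 2) * (n : ℝ) ^ p) ≤ Real.exp (c₂ * (n : ℝ) ^ p) :=
    Real.exp_le_exp.2 (mul_le_mul_of_nonneg_right (min_le_left _ _) hnp0)
  exact absurd (h6.trans h5) (not_le.2 hcon)

end Pool.XI
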