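import Pool.Agent.XI.RGate

/-!
# XI: real branching circuits with division at integer points: patterns
-/

set_option autoImplicit false
set_option linter.unusedVariables false

namespace Pool.XI

open Finset

/-- restriction of a real polynomial to a line -/
theorem exists_lineR {σ : Type} [Fintype σ] [DecidableEq σ] (P : MvPolynomial σ ℝ) (x : σ → ℕ)
    (v : σ) : ∃ p : Polynomial ℝ, p.natDegree ≤ P.totalDegree ∧
      ∀ t : ℕ, p.eval (t : ℝ) = MvPolynomial.eval (ptR (Function.update x v t)) P := by
  obtain ⟨p, hp1, hp2⟩ := exists_line (MvPolynomial.map (algebraMap ℝ ℂ) P) x v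
  refine ⟨p, hp1.trans (Finset.sup_mono (MvPolynomial.support_map_subset _ _)), fun t => ?_⟩
  rw [hp2]
  have h1 : pt (Function.update x v t) = fun i => algebraMap ℝ ℂ (ptR (Function.update x v t) i) := by
    funext i
    show ((Function.update x v t i : ℕ) : ℂ) = algebraMap ℝ ℂ ((Function.update x v t i : ℕ) : ℝ)
    rw [map_natCast]
  have h2 : MvPolynomial.eval (pt (Function.update x v t)) (MvPolynomial.map (algebraMap ℝ ℂ) P) =
      algebraMap ℝ ℂ (MvPolynomial.eval (ptR (Function.update x v t)) P) := by
    rw [h1, MvPolynomial.eval_map]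
    have h3 := MvPolynomial.eval₂_comp_left (algebraMap ℝ ℂ) (RingHom.id ℝ)
      (ptR (Function.update x v t)) P
    rw [RingHom.comp_id] at h3
    exact h3.symm
  rw [h2]
  exact Complex.ofReal_re _

/-- **patterns of a real branching circuit with division** -/
theorem exists_patternR {σ : Type} [Fintype σ] [DecidableEq σ] {d w b D s : ℕ}
    {F : Fin s → (σ → ℝ) → ℝ} {o : Fin s} (hw : 1 ≤ w) (hF : IsBranchingR d w b D F o)
    (M m₀ : ℕ) :
    ∃ (c : (σ → ℕ) → Fin s → Bool) (P : (Fin s → Bool) → Fr σ),
      (∀ (v : σ) (x : σ → ℕ), Set.ncard {t : ℕ | t + 1 < M ∧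
        c (Function.update x v t) ≠ c (Function.update x v (t + 1))} ≤ (1 + 4 * s * D) ^ b) ∧
      (∀ τ, (P τ).1.totalDegree ≤ D ∧ (P τ).2.totalDegree ≤ D) ∧
      (∀ x, MvPolynomial.eval (ptR x) (P (c x)).2 ≠ 0 ∧
        F o (ptR x) = MvPolynomial.eval (ptR x) (P (c x)).1 /
          MvPolynomial.eval (ptR x) (P (c x)).2) ∧
      ∀ x₀ : σ → ℕ, ∃ (P' : Fin s → (σ → ℝ) → ℝ) (W : MvPolynomial σ ℝ), W ≠ 0 ∧
        Pool.XN.IsNet (fun φ => Pool.SM.PS m₀ φ) d w P' ∧
        ∀ x, MvPolynomial.eval x W ≠ 0 → MvPolynomial.eval x (P (c x₀)).2 ≠ 0 ∧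
          P' o x = MvPolynomial.eval x (P (c x₀)).1 / MvPolynomial.eval x (P (c x₀)).2 := by
  classical
  obtain ⟨lev, br, p, q, hlo, hall⟩ := hF
  have hbr : ∀ g, br g ≤ b := fun g => (hall g).1
  have hpD : ∀ g, p g ≤ D := fun g => (hall g).2.1
  have hqD : ∀ g, q g ≤ D := fun g => (hall g).2.2.1
  choose step fs cd ha ha' hb hc hd he hf using fun g => exists_stepR hw m₀ (hall g).2.2.2
  choose P hP using fun τ => exists_fix step ha τ
  choose G hG using fun τ => exists_fix fs ha' τ
  -- degrees
  have hdeg : ∀ τ g, (P τ g).1.totalDegree ≤ p g ∧ (P τ g).2.totalDegree ≤ q g := by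
    intro τ g
    induction g using WellFoundedLT.induction with
    | ind g ih =>
      rw [hP τ g]
      exact hc g (P τ) (τ g) fun h hh => ih h hh
  -- the outcomes
  let c : (σ → ℕ) → Fin s → Bool := fun x g => ocR F (cd g) (ptR x)
  have hval : ∀ (l : ℕ) (τ : Fin s → Bool) (x : σ → ℕ), (∀ g, br g ≤ l → τ g = c x g) →
      ∀ g, br g ≤ l → MvPolynomial.eval (ptR x) (P τ g).2 ≠ 0 ∧
        F g (ptR x) = MvPolynomial.eval (ptR x) (P τ g).1 /
          MvPolynomial.eval (ptR x) (P τ g).2 := by
    intro l τ x hτ g
    induction g using WellFoundedLT.induction with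
    | ind g ih =>
      intro hgl
      rw [hP τ g]
      exact hb g (P τ) (τ g) (ptR x) (fun h hh hbh => ih h hh (hbh.trans hgl)) (hτ g hgl)
  let cl : ℕ → (σ → ℕ) → Fin s → Bool := fun l x g => if br g ≤ l then c x g else false
  have hclb : ∀ x, cl b x = c x := fun x => funext fun g => if_pos (hbr g)
  -- the number of the changes
  have hchg : ∀ (v : σ) (x : σ → ℕ) (l : ℕ), ((range M).filter fun t => t + 1 < M ∧
      cl l (Function.update x v t) ≠ cl l (Function.update x v (t + 1))).card + 1 ≤
        (1 + 4 * s * D) ^ l := by
    intro v x l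
    induction l with
    | zero =>
      have h0 : ∀ y, cl 0 y = fun _ => false := by
        intro y
        funext g
        show (if br g ≤ 0 then c y g else false) = false
        split_ifs with hg
        · show ocR F (cd g) (ptR y) = false
          rcases hcd : cd g with _ | f
          · rfl
          · have := (hd g f hcd).2
            omega
        · rfl
      have h1 : ((range M).filter fun t => t + 1 < M ∧
          cl 0 (Function.update x v t) ≠ cl 0 (Function.update x v (t + 1))) = ∅ := by
        rw [Finset.filter_eq_empty_iff]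
        intro t _ ht
        exact ht.2 (by rw [h0, h0])
      rw [h1]
      simp
    | succ l ih =>
      set u : ℕ → Fin s → Bool := fun t => cl l (Function.update x v t) with hu
      choose p' hp1 hp2 using fun (τ : Fin s → Bool) (g : Fin s) =>
        exists_lineR (match cd g with
          | none => 0
          | some f => tp f.2 (P τ f.1)) x v
      let St : (Fin s → Bool) → Fin s → Finset ℕ := fun τ g =>
        (range M).filter fun t : ℕ =>
          ¬ (0 < (p' τ g).eval (t : ℝ) ↔ 0 < (p' τ g).eval ((t : ℝ) + 1))
      have hSt : ∀ τ g, (St τ g).card ≤ 4 * D := by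
        intro τ g
        refine (card_changes (p' τ g) M).trans ?_
        have h1 : (p' τ g).natDegree ≤ 2 * D := by
          refine (hp1 τ g).trans ?_
          rcases cd g with _ | f
          · show (0 : MvPolynomial σ ℝ).totalDegree ≤ 2 * D
            rw [MvPolynomial.totalDegree_zero]
            exact Nat.zero_le _
          · exact tp_totalDegree f.2 _ ((hdeg τ f.1).1.trans (hpD _))
              ((hdeg τ f.1).2.trans (hqD _))
        omega
      have hsub : ((range M).filter fun t => t + 1 < M ∧
          cl (l + 1) (Function.update x v t) ≠ cl (l + 1) (Function.update x v (t + 1))) ⊆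
          ((range M).filter fun t => t + 1 < M ∧ u t ≠ u (t + 1)) ∪
            ((range M).image u).biUnion fun τ => (univ : Finset (Fin s)).biUnion fun f => St τ f := by
        intro t ht
        rw [Finset.mem_filter] at ht
        obtain ⟨ht0, ht1, ht2⟩ := ht
        by_cases h0 : u t = u (t + 1)
        · apply Finset.mem_union_right
          rw [Finset.mem_biUnion]
          refine ⟨u t, Finset.mem_image_of_mem u ht0, ?_⟩
          obtain ⟨g, hg⟩ := Function.ne_iff.1 ht2
          have hgl : br g ≤ l + 1 := by
            by_contra hcon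
            apply hg
            show (if br g ≤ l + 1 then _ else false) = if br g ≤ l + 1 then _ else false
            rw [if_neg hcon, if_neg hcon]
          have hg' : c (Function.update x v t) g ≠ c (Function.update x v (t + 1)) g := by
            intro h2
            apply hg
            show (if br g ≤ l + 1 then _ else false) = if br g ≤ l + 1 then _ else false
            rw [if_pos hgl, if_pos hgl]
            exact h2
          rw [Finset.mem_biUnion]
          refine ⟨g, mem_univ g, ?_⟩
          rw [Finset.mem_filter]
          refine ⟨ht0, fun hiff => hg' ?_⟩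
          have e3 := hp2 (u t) g t
          have e4 := hp2 (u t) g (t + 1)
          push_cast at e4
          rw [e3, e4] at hiff
          show ocR F (cd g) _ = ocR F (cd g) _
          rcases hcd : cd g with _ | f
          · rfl
          · rw [hcd] at hiff
            have hfl : br f.1 ≤ l := by
              have := (hd g f hcd).2
              omega
            have e1 := hval l (u t) (Function.update x v t) (fun g hg => by
              show (if br g ≤ l then c _ g else false) = _
              rw [if_pos hg]) f.1 hfl
            have e2 := hval l (u t) (Function.update x v (t + 1)) (fun g hg => by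
              rw [h0]
              show (if br g ≤ l then c _ g else false) = _
              rw [if_pos hg]) f.1 hfl
            show @decide (0 < tv f.2 (F f.1 (ptR (Function.update x v t)))) (Classical.dec _) =
              @decide (0 < tv f.2 (F f.1 (ptR (Function.update x v (t + 1))))) (Classical.dec _)
            rw [decide_eq_decide, e1.2, e2.2, tv_iff _ _ _ e1.1, tv_iff _ _ _ e2.1]
            exact hiff
        · apply Finset.mem_union_left
          rw [Finset.mem_filter]
          exact ⟨ht0, ht1, h0⟩
      have himg := card_image_le_changes M u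
      set A := ((range M).filter fun t => t + 1 < M ∧ u t ≠ u (t + 1)).card with hA
      have ih' : A + 1 ≤ (1 + 4 * s * D) ^ l := ih
      calc ((range M).filter fun t => t + 1 < M ∧
          cl (l + 1) (Function.update x v t) ≠ cl (l + 1) (Function.update x v (t + 1))).card + 1
          ≤ A + (((range M).image u).biUnion fun τ =>
            (univ : Finset (Fin s)).biUnion fun f => St τ f).card + 1 :=
            Nat.add_le_add_right ((Finset.card_le_card hsub).trans (Finset.card_union_le _ _)) 1
        _ ≤ A + ((range M).image u).card * (s * (4 * D)) + 1 := by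
            refine Nat.add_le_add_right (Nat.add_le_add_left ?_ A) 1
            refine (Finset.card_biUnion_le).trans ?_
            rw [← smul_eq_mul, ← Finset.sum_const]
            refine Finset.sum_le_sum fun τ _ => ?_
            refine (Finset.card_biUnion_le).trans ?_
            calc ∑ f, (St τ f).card ≤ ∑ _f : Fin s, 4 * D := Finset.sum_le_sum fun f _ => hSt τ f
              _ = s * (4 * D) := by
                rw [Finset.sum_const, Finset.card_univ, Fintype.card_fin, smul_eq_mul]
        _ ≤ A + (A + 1) * (s * (4 * D)) + 1 :=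
            Nat.add_le_add_right (Nat.add_le_add_left (Nat.mul_le_mul_right _ himg) A) 1
        _ = (A + 1) * (1 + 4 * s * D) := by ring
        _ ≤ (1 + 4 * s * D) ^ l * (1 + 4 * s * D) := Nat.mul_le_mul_right _ ih'
        _ = (1 + 4 * s * D) ^ (l + 1) := (pow_succ _ _).symm
  refine ⟨c, fun τ => P τ o, ?_, fun τ => ⟨(hdeg τ o).1.trans (hpD o), (hdeg τ o).2.trans (hqD o)⟩,
    fun x => ?_, fun x₀ => ?_⟩
  · intro v x
    have h1 := hchg v x b
    simp only [hclb] at h1
    have h2 : ({t : ℕ | t + 1 < M ∧ c (Function.update x v t) ≠ c (Function.update x v (t + 1))} :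
        Set ℕ) = (((range M).filter fun t => t + 1 < M ∧
          c (Function.update x v t) ≠ c (Function.update x v (t + 1)) : Finset ℕ) : Set ℕ) := by
      ext t
      simp only [Set.mem_ofPred_eq, Finset.coe_filter, Finset.mem_range]
      constructor
      · rintro ⟨h3, h4⟩
        exact ⟨by omega, h3, h4⟩
      · rintro ⟨-, h3, h4⟩
        exact ⟨h3, h4⟩
    rw [h2, Set.ncard_coe_finset]
    omega
  · exact hval b (c x) x (fun g _ => rfl) o (hbr o)
  · set τ := c x₀ with hτ
    refine ⟨fun g => if lev g ≤ d then G τ g else 0, ∏ g, (P τ g).2, ?_,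
      ⟨fun g => if lev g ≤ d then lev g else 0, fun g => ?_⟩, ?_⟩
    · rw [Finset.prod_ne_zero_iff]
      intro g _ h0
      apply (hval b (c x₀) x₀ (fun g _ => rfl) g (hbr g)).1
      rw [h0, map_zero]
    · by_cases hg : lev g ≤ d
      · have h1 : GateN m₀ w (fun g => if lev g ≤ d then G τ g else 0) lev g :=
          hf g (G τ) _ (τ g) (fun h _ hl => if_pos (hl.trans hg)) (by
            show (if lev g ≤ d then G τ g else 0) = _
            rw [if_pos hg]
            exact hG τ g)
        have hlv : ∀ h, lev h ≤ lev g → (if lev h ≤ d then lev h else 0) = lev h :=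
          fun h hl => if_pos (hl.trans hg)
        refine ⟨(hlv g le_rfl).le.trans hg, ?_⟩
        rcases h1 with ⟨a₀, a, c, h2, h3⟩ | ⟨a₀, a, e, h2, h3, h4⟩ | ⟨t, φ, h2, h3, h5, h4⟩
        · refine Or.inl ⟨a₀, a, c, fun h h0 => ⟨(h2 h h0).1, ?_⟩, h3⟩
          show (if lev h ≤ d then lev h else 0) ≤ if lev g ≤ d then lev g else 0
          rw [hlv h (h2 h h0).2, if_pos hg]
          exact (h2 h h0).2
        · refine Or.inr (Or.inl ⟨a₀, a, e, lt_of_lt_of_le h2 (hlv g le_rfl).ge,
            fun h h0 => ⟨(h3 h h0).1, ?_⟩, h4⟩)
          show (if lev h ≤ d then lev h else 0) < if lev g ≤ d then lev g else 0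
          rw [hlv h (h3 h h0).2.le, if_pos hg]
          exact (h3 h h0).2
        · refine Or.inr (Or.inr ⟨t, φ, lt_of_lt_of_le h2 (hlv g le_rfl).ge,
            fun i => ⟨(h3 i).1, ?_⟩, h5, h4⟩)
          show (if lev (t i) ≤ d then lev (t i) else 0) < if lev g ≤ d then lev g else 0
          rw [hlv _ (h3 i).2.le, if_pos hg]
          exact (h3 i).2
      · refine ⟨?_, Or.inl ⟨0, fun _ => 0, fun _ => 0, fun h h0 => absurd rfl h0, ?_⟩⟩
        · show (if lev g ≤ d then lev g else 0) ≤ d
          rw [if_neg hg]
          exact Nat.zero_le _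
        · show (if lev g ≤ d then G τ g else 0) = _
          rw [if_neg hg]
          funext x
          simp
    · intro x hx
      rw [map_prod, Finset.prod_ne_zero_iff] at hx
      have hx' : ∀ g, MvPolynomial.eval x (P τ g).2 ≠ 0 := fun g => hx g (mem_univ g)
      have key : ∀ g, lev g ≤ d → G τ g x =
          MvPolynomial.eval x (P τ g).1 / MvPolynomial.eval x (P τ g).2 := by
        intro g
        induction g using WellFoundedLT.induction with
        | ind g ih =>
          intro hg
          rw [hG τ g, hP τ g]
          refine he g (P τ) (τ g) (G τ) x (fun h hh hl => ⟨hx' h, ih h hh (hl.trans hg)⟩) ?_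
          rw [← hP τ g]
          exact hx' g
      refine ⟨hx' o, ?_⟩
      show (if lev o ≤ d then G τ o else 0) x = _
      rw [if_pos hlo]
      exact key o hlo

end Pool.XI
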