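import Mathlib

/-!
# XI: real branching circuits with division at integer points: definitions

`IsBranchingR d w b D F o`: the functions `F 0, ..., F (s - 1)` are the gates of a circuit over the
real numbers with divisions and branches; at most `d` nonlinear gates on each path of values to the
gate `o` (conditions are not counted), tests nested at most `b` times, formal degrees of numerators
and denominators at most `D`.
-/

set_option autoImplicit false

namespace Pool.XI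

open Finset

/-- A gate of a circuit with divisions and branches: a linear combination, a product of powers, a
polynomial in `w` earlier gates, an inverse, or a branch. -/
def GateR {σ : Type} [Fintype σ] (w : ℕ) {s : ℕ} (F : Fin s → (σ → ℝ) → ℝ)
    (lev br p q : Fin s → ℕ) (g : Fin s) : Prop :=
  (∃ (U : Finset (Fin s)) (a₀ : ℝ) (a : σ → ℝ) (c : Fin s → ℝ),
      (∀ h ∈ U, h < g ∧ lev h ≤ lev g ∧ br h ≤ br g ∧ p h + ∑ k ∈ U, q k ≤ p g) ∧
      1 + ∑ k ∈ U, q k ≤ p g ∧ ∑ k ∈ U, q k ≤ q g ∧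
      ∀ x, F g x = a₀ + ∑ v, a v * x v + ∑ h ∈ U, c h * F h x) ∨
   (∃ (a₀ : ℝ) (a : σ → ℕ) (e : Fin s → ℕ), 0 < lev g ∧
      (∀ h, e h ≠ 0 → h < g ∧ lev h < lev g ∧ br h ≤ br g) ∧
      ∑ v, a v + ∑ h, e h * p h ≤ p g ∧ ∑ h, e h * q h ≤ q g ∧
      ∀ x, F g x = a₀ * (∏ v, x v ^ a v) * ∏ h, F h x ^ e h) ∨
   (∃ (t : Fin w → Fin s) (Q : MvPolynomial (Fin w) ℝ), 0 < lev g ∧
      (∀ i, t i < g ∧ lev (t i) < lev g ∧ br (t i) ≤ br g ∧
        Q.totalDegree * (p (t i) + ∑ j, q (t j)) ≤ p g) ∧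
      Q.totalDegree * ∑ j, q (t j) ≤ q g ∧
      ∀ x, F g x = MvPolynomial.eval (fun i => F (t i) x) Q) ∨
   (∃ h : Fin s, h < g ∧ lev h < lev g ∧ br h < br g ∧ q h ≤ p g ∧ p h ≤ q g ∧
      ∀ x, F g x = (F h x)⁻¹) ∨
   (∃ f h k : Fin s, f < g ∧ h < g ∧ k < g ∧ br f < br g ∧ br h ≤ br g ∧ br k ≤ br g ∧
      lev h ≤ lev g ∧ lev k ≤ lev g ∧ p h ≤ p g ∧ p k ≤ p g ∧ q h ≤ q g ∧ q k ≤ q g ∧
      ∀ x, F g x = if 0 < F f x then F h x else F k x)

/-- A real circuit with divisions and branches. -/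
def IsBranchingR {σ : Type} [Fintype σ] (d w b D : ℕ) {s : ℕ} (F : Fin s → (σ → ℝ) → ℝ)
    (o : Fin s) : Prop :=
  ∃ lev br p q : Fin s → ℕ, lev o ≤ d ∧ ∀ g, br g ≤ b ∧ p g ≤ D ∧ q g ≤ D ∧
    GateR w F lev br p q g

/-- an integer point as a real point -/
def ptR {σ : Type} (x : σ → ℕ) : σ → ℝ := fun v => (x v : ℝ)

end Pool.XI
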