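import Pool.Agent.XI.RDefs
import Pool.Agent.XI.Circ
import Pool.Agent.XN.Net

/-!
# XI: real branching circuits with division: the formal gates
-/

set_option autoImplicit false
set_option linter.unusedVariables false

namespace Pool.XI

open Finset

section piecewise

/-- the inverse is piecewise smooth -/
theorem ps_inv (m : ℕ) {w : ℕ} (i : Fin w) : Pool.SM.PS m fun y : Fin w → ℝ => (y i)⁻¹ := by
  have hpos : ∀ (k : ℕ) (t : ℝ), 0 < t ^ 2 + Real.smoothTransition (1 - ((k : ℝ) + 1) ^ 2 * t ^ 2) := by
    intro k t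
    by_cases h : t = 0
    · subst h
      have : (1 : ℝ) - ((k : ℝ) + 1) ^ 2 * 0 ^ 2 = 1 := by ring
      rw [this, Real.smoothTransition.one]
      norm_num
    · have h1 : 0 < t ^ 2 := by positivity
      have h2 := Real.smoothTransition.nonneg (1 - ((k : ℝ) + 1) ^ 2 * t ^ 2)
      linarith
  refine ⟨fun k => match k with
    | 0 => fun _ => 0
    | k + 1 => fun y => y i / (y i ^ 2 +
        Real.smoothTransition (1 - ((k : ℝ) + 1) ^ 2 * y i ^ 2)), ?_, ?_⟩
  · intro k
    rcases k with _ | k
    · exact contDiff_const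
    · have h1 : ContDiff ℝ m fun y : Fin w → ℝ => y i := contDiff_apply ℝ ℝ i
      refine h1.div ((h1.pow 2).add (Real.smoothTransition.contDiff.comp
        (contDiff_const.sub (contDiff_const.mul (h1.pow 2))))) fun y => (hpos k (y i)).ne'
  · intro y
    by_cases h : y i = 0
    · refine ⟨0, ?_⟩
      show (y i)⁻¹ = (0 : ℝ)
      rw [h, inv_zero]
    · obtain ⟨k, hk⟩ := exists_nat_gt (1 / |y i|)
      have h0 : 0 < |y i| := abs_pos.2 h
      refine ⟨k + 1, ?_⟩
      have h1 : 1 < ((k : ℝ) + 1) * |y i| := by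
        rw [div_lt_iff₀ h0] at hk
        nlinarith
      have h2 : 1 - ((k : ℝ) + 1) ^ 2 * y i ^ 2 ≤ 0 := by
        have h3 : ((k : ℝ) + 1) ^ 2 * y i ^ 2 = (((k : ℝ) + 1) * |y i|) ^ 2 := by
          rw [mul_pow, sq_abs]
        rw [h3]
        nlinarith
      show (y i)⁻¹ = y i / (y i ^ 2 + Real.smoothTransition (1 - ((k : ℝ) + 1) ^ 2 * y i ^ 2))
      rw [Real.smoothTransition.zero_of_nonpos h2, add_zero]
      field_simp

end piecewise

section gates

variable {σ : Type} [Fintype σ] {s : ℕ}

/-- a fraction -/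
abbrev Fr (σ : Type) : Type := MvPolynomial σ ℝ × MvPolynomial σ ℝ

/-- the tested quantity: the value for sign tests, the square for zero tests -/
def tv (k : Bool) (y : ℝ) : ℝ := if k = true then y else y * y

/-- the tested polynomial -/
noncomputable def tp (k : Bool) (P : Fr σ) : MvPolynomial σ ℝ :=
  if k = true then P.1 * P.2 else P.1 * P.1

omit [Fintype σ] in
theorem tv_iff (k : Bool) (P : Fr σ) (x : σ → ℝ) (h : MvPolynomial.eval x P.2 ≠ 0) :
    0 < tv k (MvPolynomial.eval x P.1 / MvPolynomial.eval x P.2) ↔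
      0 < MvPolynomial.eval x (tp k P) := by
  unfold tv tp
  cases k
  · rw [if_neg (by simp), if_neg (by simp), map_mul]
    have h1 : 0 < MvPolynomial.eval x P.2 * MvPolynomial.eval x P.2 := mul_self_pos.2 h
    rw [div_mul_div_comm]
    constructor
    · intro h2
      have h3 := mul_pos h2 h1
      rwa [div_mul_cancel₀ _ h1.ne'] at h3
    · intro h2
      exact div_pos h2 h1
  · rw [if_pos rfl, if_pos rfl, map_mul]
    have h1 : 0 < MvPolynomial.eval x P.2 * MvPolynomial.eval x P.2 := mul_self_pos.2 h
    have h4 : MvPolynomial.eval x P.1 / MvPolynomial.eval x P.2 =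
        MvPolynomial.eval x P.1 * MvPolynomial.eval x P.2 /
          (MvPolynomial.eval x P.2 * MvPolynomial.eval x P.2) := by
      field_simp
    rw [h4]
    constructor
    · intro h2
      have h3 := mul_pos h2 h1
      rwa [div_mul_cancel₀ _ h1.ne'] at h3
    · intro h2
      exact div_pos h2 h1

omit [Fintype σ] in
theorem tp_totalDegree (k : Bool) (P : Fr σ) {D : ℕ} (h1 : P.1.totalDegree ≤ D)
    (h2 : P.2.totalDegree ≤ D) : (tp k P).totalDegree ≤ 2 * D := by
  unfold tp
  split_ifs
  · exact (MvPolynomial.totalDegree_mul _ _).trans (by omega)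
  · exact (MvPolynomial.totalDegree_mul _ _).trans (by omega)

/-- the outcome of a test -/
noncomputable def ocR (F : Fin s → (σ → ℝ) → ℝ) (cd : Option (Fin s × Bool)) (x : σ → ℝ) : Bool :=
  cd.elim false fun f => @decide (0 < tv f.2 (F f.1 x)) (Classical.dec _)

/-- the formulas of a network at one gate -/
def GateN (m w : ℕ) (P : Fin s → (σ → ℝ) → ℝ) (lev : Fin s → ℕ) (g : Fin s) : Prop :=
  (∃ (a₀ : ℝ) (a : σ → ℝ) (c : Fin s → ℝ), (∀ h, c h ≠ 0 → h < g ∧ lev h ≤ lev g) ∧
        P g = fun x => a₀ + ∑ v, a v * x v + ∑ h, c h * P h x) ∨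
     (∃ (a₀ : ℝ) (a : σ → ℕ) (e : Fin s → ℕ), 0 < lev g ∧
        (∀ h, e h ≠ 0 → h < g ∧ lev h < lev g) ∧
        P g = fun x => a₀ * (∏ v, x v ^ a v) * ∏ h, P h x ^ e h) ∨
     (∃ (t : Fin w → Fin s) (φ : (Fin w → ℝ) → ℝ), 0 < lev g ∧
        (∀ i, t i < g ∧ lev (t i) < lev g) ∧ Pool.SM.PS m φ ∧ P g = fun x => φ fun i => P (t i) x)

/-- a sum of fractions -/
theorem sum_frac (U : Finset (Fin s)) (A : ℝ) (c n d : Fin s → ℝ) (hd : ∀ k ∈ U, d k ≠ 0) :
    A + ∑ h ∈ U, c h * (n h / d h) =
      (A * ∏ k ∈ U, d k + ∑ h ∈ U, c h * n h * ∏ k ∈ U.erase h, d k) / ∏ k ∈ U, d k := by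
  have h1 : ∏ k ∈ U, d k ≠ 0 := Finset.prod_ne_zero_iff.2 hd
  rw [eq_div_iff h1, add_mul, Finset.sum_mul]
  congr 1
  refine Finset.sum_congr rfl fun h hh => ?_
  rw [← Finset.mul_prod_erase U d hh]
  have := hd h hh
  field_simp

/-- a product of fractions -/
theorem prod_frac (e : Fin s → ℕ) (n d : Fin s → ℝ) :
    ∏ h, (n h / d h) ^ e h = (∏ h, n h ^ e h) / ∏ h, d h ^ e h := by
  rw [← Finset.prod_div_distrib]
  exact Finset.prod_congr rfl fun h _ => div_pow _ _ _

/-- a polynomial of fractions -/
theorem poly_frac {w : ℕ} (Q : MvPolynomial (Fin w) ℝ) (n d : Fin w → ℝ) (hd : ∀ i, d i ≠ 0) :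
    MvPolynomial.eval (fun i => n i / d i) Q =
      (∑ m ∈ Q.support, MvPolynomial.coeff m Q *
        ∏ i, (n i ^ m i * d i ^ (Q.totalDegree - m i))) / (∏ i, d i) ^ Q.totalDegree := by
  have h1 : (∏ i, d i) ^ Q.totalDegree ≠ 0 :=
    pow_ne_zero _ (Finset.prod_ne_zero_iff.2 fun i _ => hd i)
  rw [eq_div_iff h1, MvPolynomial.eval_eq', Finset.sum_mul]
  refine Finset.sum_congr rfl fun m hm => ?_
  rw [mul_assoc]
  congr 1
  rw [← Finset.prod_pow, ← Finset.prod_mul_distrib]
  refine Finset.prod_congr rfl fun i _ => ?_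
  have h2 : m i ≤ Q.totalDegree := by
    have h3 := MvPolynomial.le_totalDegree hm
    rw [Finsupp.sum_fintype _ _ fun _ => rfl] at h3
    exact (Finset.single_le_sum (fun j _ => Nat.zero_le (m j)) (mem_univ i)).trans h3
  obtain ⟨j, hj⟩ : ∃ j, Q.totalDegree = m i + j := ⟨Q.totalDegree - m i, by omega⟩
  rw [hj, Nat.add_sub_cancel_left, pow_add, div_pow]
  have := hd i
  field_simp

/-- **the formal gate** -/
theorem exists_stepR {w : ℕ} (hw : 1 ≤ w) (m₀ : ℕ) {F : Fin s → (σ → ℝ) → ℝ}
    {lev br p q : Fin s → ℕ} {g : Fin s} (hg : GateR w F lev br p q g) :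
    ∃ (step : (Fin s → Fr σ) → Bool → Fr σ)
      (fs : (Fin s → (σ → ℝ) → ℝ) → Bool → ((σ → ℝ) → ℝ)) (cd : Option (Fin s × Bool)),
      (∀ P P' b, (∀ h, h < g → P h = P' h) → step P b = step P' b) ∧
      (∀ G G' b, (∀ h, h < g → G h = G' h) → fs G b = fs G' b) ∧
      (∀ P b x, (∀ h, h < g → br h ≤ br g → MvPolynomial.eval x (P h).2 ≠ 0 ∧
        F h x = MvPolynomial.eval x (P h).1 / MvPolynomial.eval x (P h).2) →
        b = ocR F cd x → MvPolynomial.eval x (step P b).2 ≠ 0 ∧
          F g x = MvPolynomial.eval x (step P b).1 / MvPolynomial.eval x (step P b).2) ∧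
      (∀ P b, (∀ h, h < g → (P h).1.totalDegree ≤ p h ∧ (P h).2.totalDegree ≤ q h) →
        (step P b).1.totalDegree ≤ p g ∧ (step P b).2.totalDegree ≤ q g) ∧
      (∀ f, cd = some f → f.1 < g ∧ br f.1 < br g) ∧
      (∀ P b G x, (∀ h, h < g → lev h ≤ lev g → MvPolynomial.eval x (P h).2 ≠ 0 ∧
        G h x = MvPolynomial.eval x (P h).1 / MvPolynomial.eval x (P h).2) →
        MvPolynomial.eval x (step P b).2 ≠ 0 →
        fs G b x = MvPolynomial.eval x (step P b).1 / MvPolynomial.eval x (step P b).2) ∧
      (∀ G G' b, (∀ h, h < g → lev h ≤ lev g → G' h = G h) → G' g = fs G b →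
        GateN m₀ w G' lev g) := by
  classical
  rcases hg with ⟨U, a₀, a, c, hc, hp, hq, hF⟩ | ⟨a₀, a, e, hlev, he, hp, hq, hF⟩ |
    ⟨t, Q, hlev, ht, hq, hF⟩ | ⟨h, hh, lh, bh, hp, hq, hF⟩ |
    ⟨f, h, k, hf, hh, hk, bf, bh, bk, lh, lk, ph, pk, qh, qk, hF⟩
  · -- sums
    have hval : ∀ (P : Fin s → Fr σ) (x : σ → ℝ) (y : Fin s → ℝ),
        (∀ h ∈ U, MvPolynomial.eval x (P h).2 ≠ 0 ∧
          y h = MvPolynomial.eval x (P h).1 / MvPolynomial.eval x (P h).2) →
        a₀ + ∑ v, a v * x v + ∑ h ∈ U, c h * y h =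
        MvPolynomial.eval x ((MvPolynomial.C a₀ + ∑ v, MvPolynomial.C (a v) * MvPolynomial.X v) *
          ∏ k ∈ U, (P k).2 + ∑ h ∈ U, MvPolynomial.C (c h) * (P h).1 *
            ∏ k ∈ U.erase h, (P k).2) / MvPolynomial.eval x (∏ k ∈ U, (P k).2) := by
      intro P x y hy
      have e0 : ∑ h ∈ U, c h * y h = ∑ h ∈ U, c h *
          (MvPolynomial.eval x (P h).1 / MvPolynomial.eval x (P h).2) :=
        Finset.sum_congr rfl fun h hh => by rw [(hy h hh).2]
      rw [e0, sum_frac U _ c
        (fun h => MvPolynomial.eval x (P h).1) (fun h => MvPolynomial.eval x (P h).2)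
        (fun h hh => (hy h hh).1)]
      simp only [map_add, map_sum, map_mul, map_prod, MvPolynomial.eval_C, MvPolynomial.eval_X]
    refine ⟨fun P _ => ((MvPolynomial.C a₀ + ∑ v, MvPolynomial.C (a v) * MvPolynomial.X v) *
        ∏ k ∈ U, (P k).2 + ∑ h ∈ U, MvPolynomial.C (c h) * (P h).1 *
          ∏ k ∈ U.erase h, (P k).2, ∏ k ∈ U, (P k).2),
      fun G _ x => a₀ + ∑ v, a v * x v + ∑ h ∈ U, c h * G h x, none, ?_, ?_, ?_, ?_, ?_, ?_, ?_⟩
    · intro P P' b hP
      have e1 : ∀ V ⊆ U, ∏ k ∈ V, (P k).2 = ∏ k ∈ V, (P' k).2 := fun V hV =>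
        Finset.prod_congr rfl fun k hk => by rw [hP k (hc k (hV hk)).1]
      show (_, _) = (_, _)
      rw [e1 U subset_rfl]
      congr 2
      refine Finset.sum_congr rfl fun h hh => ?_
      rw [hP h (hc h hh).1, e1 _ (erase_subset _ _)]
    · intro G G' b hG
      funext x
      show _ + _ = _ + _
      congr 1
      exact Finset.sum_congr rfl fun h hh => by rw [hG h (hc h hh).1]
    · intro P b x hP _
      have h1 : ∀ h ∈ U, MvPolynomial.eval x (P h).2 ≠ 0 ∧
          F h x = MvPolynomial.eval x (P h).1 / MvPolynomial.eval x (P h).2 := fun h hh =>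
        hP h (hc h hh).1 (hc h hh).2.2.1
      refine ⟨?_, ?_⟩
      · show MvPolynomial.eval x (∏ k ∈ U, (P k).2) ≠ 0
        rw [map_prod]
        exact Finset.prod_ne_zero_iff.2 fun k hk => (h1 k hk).1
      · rw [hF]
        exact hval P x (fun h => F h x) h1
    · intro P b hP
      have e1 : ∀ V ⊆ U, (∏ k ∈ V, (P k).2).totalDegree ≤ ∑ k ∈ U, q k := by
        intro V hV
        refine (MvPolynomial.totalDegree_finsetProd _ _).trans ?_
        refine (Finset.sum_le_sum fun k hk => (hP k (hc k (hV hk)).1).2).trans ?_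
        exact Finset.sum_le_sum_of_subset hV
      refine ⟨?_, (e1 U subset_rfl).trans hq⟩
      refine (MvPolynomial.totalDegree_add _ _).trans (max_le ?_ ?_)
      · refine (MvPolynomial.totalDegree_mul _ _).trans (le_trans (Nat.add_le_add ?_
          (e1 U subset_rfl)) hp)
        refine (MvPolynomial.totalDegree_add _ _).trans (max_le ?_ ?_)
        · rw [MvPolynomial.totalDegree_C]
          exact Nat.zero_le _
        · refine MvPolynomial.totalDegree_finsetSum_le fun v _ => ?_
          refine (MvPolynomial.totalDegree_mul _ _).trans ?_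
          rw [MvPolynomial.totalDegree_C, MvPolynomial.totalDegree_X]
      · refine MvPolynomial.totalDegree_finsetSum_le fun h hh => ?_
        refine (MvPolynomial.totalDegree_mul _ _).trans (le_trans (Nat.add_le_add ?_
          (e1 _ (erase_subset _ _))) (hc h hh).2.2.2)
        refine (MvPolynomial.totalDegree_mul _ _).trans ?_
        rw [MvPolynomial.totalDegree_C, zero_add]
        exact (hP h (hc h hh).1).1
    · intro f hf
      cases hf
    · intro P b G x hG _
      exact hval P x (fun h => G h x) fun h hh => hG h (hc h hh).1 (hc h hh).2.1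
    · intro G G' b hG hg
      refine Or.inl ⟨a₀, a, fun h => if h ∈ U then c h else 0, fun h h0 => ?_, ?_⟩
      · have hU : h ∈ U := by
          by_contra h1
          exact h0 (if_neg h1)
        exact ⟨(hc h hU).1, (hc h hU).2.1⟩
      · rw [hg]
        funext x
        have e3 : ∑ h ∈ U, c h * G h x = ∑ h, (if h ∈ U then c h else 0) * G' h x := by
          rw [← Finset.sum_filter_add_sum_filter_not univ (fun h => h ∈ U)]
          have e1 : ∑ h ∈ univ.filter (fun h => ¬ h ∈ U),
              (if h ∈ U then c h else 0) * G' h x = 0 := by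
            refine Finset.sum_eq_zero fun h hh => ?_
            rw [if_neg (mem_filter.1 hh).2, zero_mul]
          rw [e1, add_zero]
          have e2 : univ.filter (fun h => h ∈ U) = U := by
            ext h
            simp
          rw [e2]
          refine Finset.sum_congr rfl fun h hh => ?_
          rw [if_pos hh, hG h (hc h hh).1 (hc h hh).2.1]
        show a₀ + ∑ v, a v * x v + ∑ h ∈ U, c h * G h x = a₀ + ∑ v, a v * x v +
          ∑ h, (if h ∈ U then c h else 0) * G' h x
        rw [e3]
  · -- products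
    have hval : ∀ (P : Fin s → Fr σ) (x : σ → ℝ) (y : Fin s → ℝ),
        (∀ h, e h ≠ 0 → MvPolynomial.eval x (P h).2 ≠ 0 ∧
          y h = MvPolynomial.eval x (P h).1 / MvPolynomial.eval x (P h).2) →
        a₀ * (∏ v, x v ^ a v) * ∏ h, y h ^ e h =
        MvPolynomial.eval x (MvPolynomial.C a₀ * (∏ v, MvPolynomial.X v ^ a v) *
          ∏ h, (P h).1 ^ e h) / MvPolynomial.eval x (∏ h, (P h).2 ^ e h) := by
      intro P x y hy
      have e1 : ∏ h, y h ^ e h =
          ∏ h, (MvPolynomial.eval x (P h).1 / MvPolynomial.eval x (P h).2) ^ e h := by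
        refine Finset.prod_congr rfl fun h _ => ?_
        by_cases h0 : e h = 0
        · rw [h0, pow_zero, pow_zero]
        · rw [(hy h h0).2]
      rw [e1, prod_frac e (fun h => MvPolynomial.eval x (P h).1)
        (fun h => MvPolynomial.eval x (P h).2)]
      simp only [map_mul, map_prod, map_pow, MvPolynomial.eval_C, MvPolynomial.eval_X]
      rw [mul_div_assoc]
    have hne : ∀ (P : Fin s → Fr σ) (x : σ → ℝ),
        (∀ h, e h ≠ 0 → MvPolynomial.eval x (P h).2 ≠ 0) →
        MvPolynomial.eval x (∏ h, (P h).2 ^ e h) ≠ 0 := by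
      intro P x hy
      rw [map_prod]
      refine Finset.prod_ne_zero_iff.2 fun h _ => ?_
      rw [map_pow]
      by_cases h0 : e h = 0
      · rw [h0, pow_zero]
        exact one_ne_zero
      · exact pow_ne_zero _ (hy h h0)
    refine ⟨fun P _ => (MvPolynomial.C a₀ * (∏ v, MvPolynomial.X v ^ a v) * ∏ h, (P h).1 ^ e h,
      ∏ h, (P h).2 ^ e h), fun G _ x => a₀ * (∏ v, x v ^ a v) * ∏ h, G h x ^ e h, none,
      ?_, ?_, ?_, ?_, ?_, ?_, ?_⟩
    · intro P P' b hP
      have e1 : ∏ h, (P h).1 ^ e h = ∏ h, (P' h).1 ^ e h := by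
        refine Finset.prod_congr rfl fun h _ => ?_
        by_cases h0 : e h = 0
        · rw [h0, pow_zero, pow_zero]
        · rw [hP h (he h h0).1]
      have e2 : ∏ h, (P h).2 ^ e h = ∏ h, (P' h).2 ^ e h := by
        refine Finset.prod_congr rfl fun h _ => ?_
        by_cases h0 : e h = 0
        · rw [h0, pow_zero, pow_zero]
        · rw [hP h (he h h0).1]
      show (_, _) = (_, _)
      rw [e1, e2]
    · intro G G' b hG
      funext x
      show _ * _ = _ * _
      congr 1
      refine Finset.prod_congr rfl fun h _ => ?_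
      by_cases h0 : e h = 0
      · rw [h0, pow_zero, pow_zero]
      · rw [hG h (he h h0).1]
    · intro P b x hP _
      refine ⟨hne P x fun h h0 => (hP h (he h h0).1 (he h h0).2.2).1, ?_⟩
      rw [hF]
      exact hval P x (fun h => F h x) fun h h0 => hP h (he h h0).1 (he h h0).2.2
    · intro P b hP
      refine ⟨le_trans ?_ hp, le_trans ?_ hq⟩
      · refine (MvPolynomial.totalDegree_mul _ _).trans (Nat.add_le_add ?_ ?_)
        · refine (MvPolynomial.totalDegree_mul _ _).trans ?_
          rw [MvPolynomial.totalDegree_C, zero_add]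
          refine (MvPolynomial.totalDegree_finsetProd _ _).trans (Finset.sum_le_sum fun v _ => ?_)
          refine (MvPolynomial.totalDegree_pow _ _).trans ?_
          rw [MvPolynomial.totalDegree_X, mul_one]
        · refine (MvPolynomial.totalDegree_finsetProd _ _).trans (Finset.sum_le_sum fun h _ => ?_)
          refine (MvPolynomial.totalDegree_pow _ _).trans ?_
          by_cases h0 : e h = 0
          · rw [h0, zero_mul, zero_mul]
          · exact Nat.mul_le_mul_left _ (hP h (he h h0).1).1
      · refine (MvPolynomial.totalDegree_finsetProd _ _).trans (Finset.sum_le_sum fun h _ => ?_)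
        refine (MvPolynomial.totalDegree_pow _ _).trans ?_
        by_cases h0 : e h = 0
        · rw [h0, zero_mul, zero_mul]
        · exact Nat.mul_le_mul_left _ (hP h (he h h0).1).2
    · intro f hf
      cases hf
    · intro P b G x hG _
      exact hval P x (fun h => G h x) fun h h0 => hG h (he h h0).1 (he h h0).2.1.le
    · intro G G' b hG hg
      refine Or.inr (Or.inl ⟨a₀, a, e, hlev, fun h h0 => ⟨(he h h0).1, (he h h0).2.1⟩, ?_⟩)
      rw [hg]
      funext x
      show _ * _ = _ * _
      congr 1
      refine Finset.prod_congr rfl fun h _ => ?_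
      by_cases h0 : e h = 0
      · rw [h0, pow_zero, pow_zero]
      · rw [hG h (he h h0).1 (he h h0).2.1.le]
  · -- polynomials in w earlier gates
    have hval : ∀ (P : Fin s → Fr σ) (x : σ → ℝ) (y : Fin s → ℝ),
        (∀ i, MvPolynomial.eval x (P (t i)).2 ≠ 0 ∧
          y (t i) = MvPolynomial.eval x (P (t i)).1 / MvPolynomial.eval x (P (t i)).2) →
        MvPolynomial.eval (fun i => y (t i)) Q =
        MvPolynomial.eval x (∑ m ∈ Q.support, MvPolynomial.C (MvPolynomial.coeff m Q) *
          ∏ i, ((P (t i)).1 ^ m i * (P (t i)).2 ^ (Q.totalDegree - m i))) /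
          MvPolynomial.eval x ((∏ i, (P (t i)).2) ^ Q.totalDegree) := by
      intro P x y hy
      have e1 : (fun i => y (t i)) = fun i =>
          MvPolynomial.eval x (P (t i)).1 / MvPolynomial.eval x (P (t i)).2 :=
        funext fun i => (hy i).2
      rw [e1, poly_frac Q _ _ fun i => (hy i).1]
      simp only [map_sum, map_mul, map_prod, map_pow, MvPolynomial.eval_C]
    refine ⟨fun P _ => (∑ m ∈ Q.support, MvPolynomial.C (MvPolynomial.coeff m Q) *
      ∏ i, ((P (t i)).1 ^ m i * (P (t i)).2 ^ (Q.totalDegree - m i)),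
      (∏ i, (P (t i)).2) ^ Q.totalDegree), fun G _ x => MvPolynomial.eval (fun i => G (t i) x) Q,
      none, ?_, ?_, ?_, ?_, ?_, ?_, ?_⟩
    · intro P P' b hP
      have : ∀ i, P (t i) = P' (t i) := fun i => hP _ (ht i).1
      show (_, _) = (_, _)
      simp only [this]
    · intro G G' b hG
      funext x
      have : ∀ i, G (t i) = G' (t i) := fun i => hG _ (ht i).1
      show MvPolynomial.eval (fun i => G (t i) x) Q = MvPolynomial.eval (fun i => G' (t i) x) Q
      simp only [this]
    · intro P b x hP _
      have h1 := fun i => hP (t i) (ht i).1 (ht i).2.2.1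
      refine ⟨?_, ?_⟩
      · show MvPolynomial.eval x ((∏ i, (P (t i)).2) ^ Q.totalDegree) ≠ 0
        rw [map_pow, map_prod]
        exact pow_ne_zero _ (Finset.prod_ne_zero_iff.2 fun i _ => (h1 i).1)
      · rw [hF]
        exact hval P x (fun h => F h x) h1
    · intro P b hP
      have hn := fun i => (hP (t i) (ht i).1).1
      have hd := fun i => (hP (t i) (ht i).1).2
      refine ⟨?_, ?_⟩
      · refine MvPolynomial.totalDegree_finsetSum_le fun m hm => ?_
        refine (MvPolynomial.totalDegree_mul _ _).trans ?_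
        rw [MvPolynomial.totalDegree_C, zero_add]
        refine (MvPolynomial.totalDegree_finsetProd _ _).trans ?_
        have hm1 : ∑ i, m i ≤ Q.totalDegree := by
          have := MvPolynomial.le_totalDegree hm
          rwa [Finsupp.sum_fintype _ _ fun _ => rfl] at this
        rcases Nat.eq_zero_or_pos w with h0 | h0
        · omega
        · obtain ⟨i0, -, hi0⟩ := Finset.exists_max_image (univ : Finset (Fin w))
            (fun i => p (t i)) ⟨⟨0, h0⟩, mem_univ _⟩
          have e1 : ∀ i, ((P (t i)).1 ^ m i * (P (t i)).2 ^ (Q.totalDegree - m i)).totalDegree ≤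
              m i * p (t i0) + Q.totalDegree * q (t i) := by
            intro i
            refine (MvPolynomial.totalDegree_mul _ _).trans (Nat.add_le_add ?_ ?_)
            · exact (MvPolynomial.totalDegree_pow _ _).trans
                (Nat.mul_le_mul_left _ ((hn i).trans (hi0 i (mem_univ i))))
            · exact (MvPolynomial.totalDegree_pow _ _).trans
                (Nat.mul_le_mul (Nat.sub_le _ _) (hd i))
          calc ∑ i, ((P (t i)).1 ^ m i * (P (t i)).2 ^ (Q.totalDegree - m i)).totalDegree ≤
              ∑ i, (m i * p (t i0) + Q.totalDegree * q (t i)) :=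
                Finset.sum_le_sum fun i _ => e1 i
            _ = (∑ i, m i) * p (t i0) + Q.totalDegree * ∑ j, q (t j) := by
                rw [Finset.sum_add_distrib, Finset.sum_mul, Finset.mul_sum]
            _ ≤ Q.totalDegree * p (t i0) + Q.totalDegree * ∑ j, q (t j) :=
                Nat.add_le_add_right (Nat.mul_le_mul_right _ hm1) _
            _ = Q.totalDegree * (p (t i0) + ∑ j, q (t j)) := (Nat.mul_add _ _ _).symm
            _ ≤ p g := (ht i0).2.2.2
      · refine (MvPolynomial.totalDegree_pow _ _).trans (le_trans (Nat.mul_le_mul_left _ ?_) hq)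
        exact (MvPolynomial.totalDegree_finsetProd _ _).trans (Finset.sum_le_sum fun i _ => hd i)
    · intro f hf
      cases hf
    · intro P b G x hG _
      exact hval P x (fun h => G h x) fun i => hG (t i) (ht i).1 (ht i).2.1.le
    · intro G G' b hG hg
      refine Or.inr (Or.inr ⟨t, fun y => MvPolynomial.eval y Q, hlev,
        fun i => ⟨(ht i).1, (ht i).2.1⟩, ⟨fun _ y => MvPolynomial.eval y Q, fun _ => ?_,
          fun y => ⟨0, rfl⟩⟩, ?_⟩)
      · have h1 : ∀ Q : MvPolynomial (Fin w) ℝ,
            ContDiff ℝ m₀ fun y : Fin w → ℝ => MvPolynomial.eval y Q := by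
          intro Q
          induction Q using MvPolynomial.induction_on with
          | C z => simp only [MvPolynomial.eval_C]; exact contDiff_const
          | add P R hP hR => simp only [map_add]; exact hP.add hR
          | mul_X P i hP =>
            simp only [map_mul, MvPolynomial.eval_X]
            exact hP.mul (contDiff_apply ℝ ℝ i)
        exact h1 Q
      · rw [hg]
        funext x
        have : ∀ i, G (t i) = G' (t i) := fun i => (hG _ (ht i).1 (ht i).2.1.le).symm
        show MvPolynomial.eval (fun i => G (t i) x) Q = MvPolynomial.eval (fun i => G' (t i) x) Q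
        simp only [this]
  · -- inverses
    refine ⟨fun P b => if b = true then ((P h).2, (P h).1) else (0, 1),
      fun G b => if b = true then fun x => (G h x)⁻¹ else fun _ => 0, some (h, false),
      ?_, ?_, ?_, ?_, ?_, ?_, ?_⟩
    · intro P P' b hP
      show (if b = true then ((P h).2, (P h).1) else (0, 1)) =
        if b = true then ((P' h).2, (P' h).1) else (0, 1)
      rw [hP h hh]
    · intro G G' b hG
      show (if b = true then fun x => (G h x)⁻¹ else fun _ => 0) =
        if b = true then fun x => (G' h x)⁻¹ else fun _ => 0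
      rw [hG h hh]
    · intro P b x hP hb
      obtain ⟨h1, h2⟩ := hP h hh bh.le
      have hb' : b = true ↔ F h x ≠ 0 := by
        rw [hb]
        show @decide (0 < tv false (F h x)) (Classical.dec _) = true ↔ _
        rw [decide_eq_true_iff]
        unfold tv
        rw [if_neg (by simp)]
        exact mul_self_pos
      show MvPolynomial.eval x (if b = true then ((P h).2, (P h).1) else ((0, 1) : Fr σ)).2 ≠ 0 ∧
        F g x = MvPolynomial.eval x (if b = true then ((P h).2, (P h).1) else ((0, 1) : Fr σ)).1 /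
          MvPolynomial.eval x (if b = true then ((P h).2, (P h).1) else ((0, 1) : Fr σ)).2
      rw [hF]
      by_cases h0 : F h x = 0
      · rw [if_neg fun h3 => hb'.1 h3 h0, h0]
        simp
      · rw [if_pos (hb'.2 h0)]
        rw [h2] at h0 ⊢
        refine ⟨fun h3 => h0 ?_, ?_⟩
        · have h4 : MvPolynomial.eval x (P h).1 = 0 := h3
          rw [h4, zero_div]
        · rw [inv_div]
    · intro P b hP
      show (if b = true then ((P h).2, (P h).1) else ((0, 1) : Fr σ)).1.totalDegree ≤ p g ∧
        (if b = true then ((P h).2, (P h).1) else ((0, 1) : Fr σ)).2.totalDegree ≤ q g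
      split_ifs
      · exact ⟨(hP h hh).2.trans hp, (hP h hh).1.trans hq⟩
      · refine ⟨?_, ?_⟩
        · rw [MvPolynomial.totalDegree_zero]
          exact Nat.zero_le _
        · rw [MvPolynomial.totalDegree_one]
          exact Nat.zero_le _
    · intro f hf
      cases hf
      exact ⟨hh, bh⟩
    · intro P b G x hG
      show MvPolynomial.eval x (if b = true then ((P h).2, (P h).1) else ((0, 1) : Fr σ)).2 ≠ 0 →
        (if b = true then fun x => (G h x)⁻¹ else fun _ => 0) x =
        MvPolynomial.eval x (if b = true then ((P h).2, (P h).1) else ((0, 1) : Fr σ)).1 /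
          MvPolynomial.eval x (if b = true then ((P h).2, (P h).1) else ((0, 1) : Fr σ)).2
      obtain ⟨h1, h2⟩ := hG h hh lh.le
      split_ifs
      · intro _
        show (G h x)⁻¹ = MvPolynomial.eval x (P h).2 / MvPolynomial.eval x (P h).1
        rw [h2, inv_div]
      · intro _
        simp
    · intro G G' b hG hg
      by_cases hb : b = true
      · refine Or.inr (Or.inr ⟨fun _ => h, fun y => (y ⟨0, hw⟩)⁻¹, by omega, fun _ => ⟨hh, lh⟩,
          ps_inv m₀ _, ?_⟩)
        rw [hg]
        show (if b = true then fun x => (G h x)⁻¹ else fun _ => 0) = fun x => (G' h x)⁻¹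
        rw [if_pos hb, hG h hh lh.le]
      · refine Or.inl ⟨0, fun _ => 0, fun _ => 0, fun h h0 => absurd rfl h0, ?_⟩
        rw [hg]
        show (if b = true then fun x => (G h x)⁻¹ else fun _ => 0) = _
        rw [if_neg hb]
        funext x
        simp
  · -- branches
    refine ⟨fun P b => if b = true then P h else P k, fun G b => if b = true then G h else G k,
      some (f, true), ?_, ?_, ?_, ?_, ?_, ?_, ?_⟩
    · intro P P' b hP
      show (if b = true then P h else P k) = if b = true then P' h else P' k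
      rw [hP h hh, hP k hk]
    · intro G G' b hG
      show (if b = true then G h else G k) = if b = true then G' h else G' k
      rw [hG h hh, hG k hk]
    · intro P b x hP hb
      have hb' : b = true ↔ 0 < F f x := by
        rw [hb]
        show @decide (0 < tv true (F f x)) (Classical.dec _) = true ↔ _
        rw [decide_eq_true_iff]
        unfold tv
        rw [if_pos rfl]
      show MvPolynomial.eval x (if b = true then P h else P k).2 ≠ 0 ∧
        F g x = MvPolynomial.eval x (if b = true then P h else P k).1 /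
          MvPolynomial.eval x (if b = true then P h else P k).2
      rw [hF]
      by_cases h0 : 0 < F f x
      · rw [if_pos h0, if_pos (hb'.2 h0)]
        exact hP h hh bh
      · rw [if_neg h0, if_neg fun h2 => h0 (hb'.1 h2)]
        exact hP k hk bk
    · intro P b hP
      show (if b = true then P h else P k).1.totalDegree ≤ p g ∧
        (if b = true then P h else P k).2.totalDegree ≤ q g
      split_ifs
      · exact ⟨(hP h hh).1.trans ph, (hP h hh).2.trans qh⟩
      · exact ⟨(hP k hk).1.trans pk, (hP k hk).2.trans qk⟩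
    · intro f' hf'
      cases hf'
      exact ⟨hf, bf⟩
    · intro P b G x hG _
      show (if b = true then G h else G k) x = MvPolynomial.eval x (if b = true then P h else P k).1 /
          MvPolynomial.eval x (if b = true then P h else P k).2
      split_ifs
      · exact (hG h hh lh).2
      · exact (hG k hk lk).2
    · intro G G' b hG hg
      obtain ⟨j, hj, lj, hjP⟩ : ∃ j, j < g ∧ lev j ≤ lev g ∧ G' g = G' j := by
        rw [hg]
        show ∃ j, j < g ∧ lev j ≤ lev g ∧ (if b = true then G h else G k) = G' j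
        split_ifs
        · exact ⟨h, hh, lh, (hG h hh lh).symm⟩
        · exact ⟨k, hk, lk, (hG k hk lk).symm⟩
      refine Or.inl ⟨0, fun _ => 0, fun i => if i = j then 1 else 0, fun i hi => ?_, ?_⟩
      · have : i = j := by
          by_contra h0
          have hi' : (if i = j then (1 : ℝ) else 0) ≠ 0 := hi
          rw [if_neg h0] at hi'
          exact hi' rfl
        rw [this]
        exact ⟨hj, lj⟩
      · rw [hjP]
        funext x
        simp

end gates

end Pool.XI
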